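import Mathlib

/-!
helper524: the symplectic space of dimension `2 m` over the field with two elements, and the number
of its `k`-tuples of vectors that are pairwise orthogonal, or pairwise not orthogonal.
-/

set_option autoImplicit false

namespace Pool.Agent.H524PR

open Finset Module

/-- The space `F₂^m × F₂^m`. -/
abbrev SV (m : ℕ) := (Fin m → ZMod 2) × (Fin m → ZMod 2)

/-- The alternating form `x₁ · y₂ + x₂ · y₁`. -/
noncomputable def B (m : ℕ) : LinearMap.BilinForm (ZMod 2) (SV m) :=
  LinearMap.mk₂ (ZMod 2) (fun u v => u.1 ⬝ᵥ v.2 + u.2 ⬝ᵥ v.1)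
    (by intro u v w; simp [add_dotProduct]; ring)
    (by intro c u v; simp [smul_dotProduct]; ring)
    (by intro u v w; simp [dotProduct_add]; ring)
    (by intro c u v; simp [dotProduct_smul]; ring)

variable {m : ℕ}

lemma B_apply (u v : SV m) : B m u v = u.1 ⬝ᵥ v.2 + u.2 ⬝ᵥ v.1 := rfl

lemma B_symm (u v : SV m) : B m u v = B m v u := by
  rw [B_apply, B_apply, dotProduct_comm u.1, dotProduct_comm u.2, add_comm]

lemma B_self (u : SV m) : B m u u = 0 := by
  rw [B_apply, dotProduct_comm u.2]
  exact CharTwo.add_self_eq_zero _

lemma B_sep {u : SV m} (h : ∀ v, B m u v = 0) : u = 0 := by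
  ext i
  · have := h (0, Pi.single i 1)
    simpa [B_apply] using this
  · have := h (Pi.single i 1, 0)
    simpa [B_apply] using this

lemma B_nondeg : (B m).Nondegenerate := by
  constructor
  · intro u hu
    exact B_sep hu
  · intro u hu
    exact B_sep (fun v => by rw [B_symm]; exact hu v)

lemma finrank_SV : finrank (ZMod 2) (SV m) = 2 * m := by
  simp [SV]; ring

lemma card_SV : Fintype.card (SV m) = 2 ^ (2 * m) := by
  rw [Module.card_eq_pow_finrank (K := ZMod 2), finrank_SV, ZMod.card]

open Classical in
lemma card_sub (W : Submodule (ZMod 2) (SV m)) :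
    #(univ.filter fun v => v ∈ W) = 2 ^ finrank (ZMod 2) W := by
  have h := Module.card_eq_pow_finrank (K := ZMod 2) (V := W)
  rw [ZMod.card] at h
  rw [← h, Fintype.card_subtype]

/-- The dimension of the span of a family of vectors. -/
noncomputable def dm {k : ℕ} (g : Fin k → SV m) : ℕ :=
  finrank (ZMod 2) (Submodule.span (ZMod 2) (Set.range g))

lemma orth_iff {k : ℕ} (g : Fin k → SV m) (v : SV m) :
    v ∈ (B m).orthogonal (Submodule.span (ZMod 2) (Set.range g)) ↔ ∀ i, B m (g i) v = 0 := by
  constructor
  · intro h i
    exact h (g i) (Submodule.subset_span ⟨i, rfl⟩)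
  · intro h w hw
    induction hw using Submodule.span_induction with
    | mem x hx =>
      obtain ⟨i, rfl⟩ := hx
      exact h i
    | zero => simp
    | add x y _ _ hx hy =>
      simp only [map_add, LinearMap.add_apply] at *
      rw [hx, hy, add_zero]
    | smul a x _ hx =>
      simp only [map_smul, LinearMap.smul_apply] at *
      rw [hx, smul_zero]

open Classical in
lemma card_orth {k : ℕ} (g : Fin k → SV m) :
    #(univ.filter fun v => ∀ i, B m (g i) v = 0) = 2 ^ (2 * m - dm g) := by
  have h : (univ.filter fun v => ∀ i, B m (g i) v = 0) =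
      univ.filter fun v => v ∈ (B m).orthogonal (Submodule.span (ZMod 2) (Set.range g)) := by
    ext v
    simp only [mem_filter, mem_univ, true_and]
    exact (orth_iff g v).symm
  rw [h, card_sub, LinearMap.BilinForm.finrank_orthogonal B_nondeg, finrank_SV]
  rfl

open Classical in
/-- The number of vectors with given products with the members of a family. -/
lemma card_orth_le {k : ℕ} (g : Fin k → SV m) (c : Fin k → ZMod 2) :
    #(univ.filter fun v => ∀ i, B m (g i) v = c i) ≤ 2 ^ (2 * m - dm g) := by
  rcases (univ.filter fun v => ∀ i, B m (g i) v = c i).eq_empty_or_nonempty with h | ⟨w, hw⟩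
  · rw [h]; simp
  · rw [← card_orth g]
    apply Finset.card_le_card_of_injOn (fun v => v + w)
    · intro v hv
      simp only [coe_filter, mem_univ, true_and, Set.mem_ofPred_eq] at hv ⊢
      simp only [mem_filter, mem_univ, true_and] at hw
      intro i
      rw [map_add, hv i, hw i]
      exact CharTwo.add_self_eq_zero _
    · intro x _ y _ hxy
      simpa using hxy

lemma dm_le {k : ℕ} (g : Fin k → SV m) : dm g ≤ 2 * m := by
  have := Submodule.finrank_le (Submodule.span (ZMod 2) (Set.range g))
  rwa [finrank_SV] at this

lemma dm_le' {k : ℕ} (g : Fin k → SV m) : dm g ≤ k := by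
  have := finrank_range_le_card (R := ZMod 2) g
  simpa [dm, Set.finrank] using this

/-- A totally isotropic family spans at most `m` dimensions. -/
lemma dm_iso {k : ℕ} (g : Fin k → SV m) (h : ∀ a b, B m (g a) (g b) = 0) : dm g ≤ m := by
  have h1 : Submodule.span (ZMod 2) (Set.range g) ≤
      (B m).orthogonal (Submodule.span (ZMod 2) (Set.range g)) := by
    rw [Submodule.span_le]
    rintro _ ⟨b, rfl⟩
    exact (orth_iff g (g b)).2 (fun i => h i b)
  have h2 := Submodule.finrank_mono h1
  rw [LinearMap.BilinForm.finrank_orthogonal B_nondeg, finrank_SV] at h2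
  have h3 := dm_le g
  unfold dm at *
  omega

/-- If all products of different members are `1`, the span has at least `k - 1` dimensions. -/
lemma dm_clique {k : ℕ} (g : Fin k → SV m) (h : ∀ a b, a ≠ b → B m (g a) (g b) = 1) :
    k ≤ dm g + 1 := by
  classical
  let L : (Fin k → ZMod 2) →ₗ[ZMod 2] SV m := Fintype.linearCombination (ZMod 2) g
  have hr : LinearMap.range L = Submodule.span (ZMod 2) (Set.range g) :=
    Fintype.range_linearCombination _ _
  have hk : finrank (ZMod 2) (LinearMap.ker L) ≤ 1 := by
    have : LinearMap.ker L ≤ Submodule.span (ZMod 2) {(fun _ => 1 : Fin k → ZMod 2)} := by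
      intro c hc
      have hc' : ∑ i, c i • g i = 0 := by
        simpa [L, Fintype.linearCombination_apply] using hc
      have key : ∀ j, c j = ∑ i, c i := by
        intro j
        have h1 : B m (∑ i, c i • g i) (g j) = 0 := by rw [hc']; simp
        rw [map_sum, LinearMap.sum_apply] at h1
        rw [← Finset.add_sum_erase _ _ (mem_univ j)] at h1 ⊢
        have h2 : ∑ x ∈ univ.erase j, (B m (c x • g x)) (g j) = ∑ x ∈ univ.erase j, c x := by
          apply Finset.sum_congr rfl
          intro i hi
          rw [map_smul, LinearMap.smul_apply, h i j (Finset.ne_of_mem_erase hi), smul_eq_mul,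
            mul_one]
        rw [h2, map_smul, LinearMap.smul_apply, B_self, smul_zero, zero_add] at h1
        rw [h1, add_zero]
      rw [Submodule.mem_span_singleton]
      refine ⟨∑ i, c i, ?_⟩
      ext j
      simp [← key j]
    exact (Submodule.finrank_mono this).trans (by
      have := finrank_span_le_card (R := ZMod 2) ({(fun _ => 1 : Fin k → ZMod 2)} : Set (Fin k → ZMod 2))
      simpa using this)
  have h3 := LinearMap.finrank_range_add_finrank_ker L
  rw [hr] at h3
  simp only [finrank_fintype_fun_eq_card, Fintype.card_fin] at h3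
  unfold dm
  omega

end Pool.Agent.H524PR
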