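import Mathlib
import Pool.Agent.Helper524_PR.Sympl

/-!
helper524: upper bounds for the number of `k`-tuples of pairwise orthogonal vectors and for the
number of `k`-tuples of vectors all of whose products are `1`.
-/

set_option autoImplicit false

namespace Pool.Agent.H524PR

open Finset Module

variable {m : ℕ}

/-- All products of different members are `c`. -/
def PW (c : ZMod 2) {k : ℕ} (g : Fin k → SV m) : Prop := ∀ a b, a ≠ b → B m (g a) (g b) = c

open Classical in
/-- The number of `k`-tuples with all products `c` and span of dimension `d`. -/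
noncomputable def N (m : ℕ) (c : ZMod 2) (k d : ℕ) : ℕ :=
  #(univ.filter fun g : Fin k → SV m => PW c g ∧ dm g = d)

lemma PW_tail {c : ZMod 2} {k : ℕ} {f : Fin (k + 1) → SV m} (h : PW c f) : PW c (Fin.tail f) :=
  fun a b hab => h a.succ b.succ (fun e => hab (Fin.succ_injective _ e))

lemma PW_zero {c : ZMod 2} {k : ℕ} {f : Fin (k + 1) → SV m} (h : PW c f) (i : Fin k) :
    B m (Fin.tail f i) (f 0) = c := h i.succ 0 (Fin.succ_ne_zero i)

lemma range_tail {k : ℕ} (f : Fin (k + 1) → SV m) :
    Set.range f = insert (f 0) (Set.range (Fin.tail f)) := by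
  rw [← Fin.range_cons, Fin.cons_self_tail]

lemma dm_mem {k : ℕ} (f : Fin (k + 1) → SV m)
    (h : f 0 ∈ Submodule.span (ZMod 2) (Set.range (Fin.tail f))) : dm f = dm (Fin.tail f) := by
  unfold dm
  rw [range_tail, Submodule.span_insert_eq_span h]

lemma dm_not_mem {k : ℕ} (f : Fin (k + 1) → SV m)
    (h : f 0 ∉ Submodule.span (ZMod 2) (Set.range (Fin.tail f))) :
    dm f = dm (Fin.tail f) + 1 := by
  unfold dm
  rw [range_tail, Submodule.span_insert]
  have h0 : f 0 ≠ 0 := by
    intro h0
    rw [h0] at h
    exact h (Submodule.zero_mem _)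
  have h1 := Submodule.finrank_sup_add_finrank_inf_eq (Submodule.span (ZMod 2) {f 0})
    (Submodule.span (ZMod 2) (Set.range (Fin.tail f)))
  have h2 : Submodule.span (ZMod 2) {f 0} ⊓ Submodule.span (ZMod 2) (Set.range (Fin.tail f)) = ⊥ := by
    rw [Submodule.eq_bot_iff]
    rintro x ⟨hx1, hx2⟩
    rw [SetLike.mem_coe, Submodule.mem_span_singleton] at hx1
    obtain ⟨a, rfl⟩ := hx1
    by_contra hne
    have ha : a ≠ 0 := by rintro rfl; simp at hne
    apply h
    have := Submodule.smul_mem _ a⁻¹ hx2
    rwa [smul_smul, inv_mul_cancel₀ ha, one_smul] at this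
  rw [h2, finrank_bot, add_zero, finrank_span_singleton h0] at h1
  omega

open Classical in
/-- Counting through the tails. -/
lemma count_tail {k : ℕ} (S : Finset (Fin (k + 1) → SV m)) (T : Finset (Fin k → SV m))
    (P : (Fin k → SV m) → SV m → Prop) (n : ℕ) (h1 : ∀ f ∈ S, Fin.tail f ∈ T)
    (h2 : ∀ f ∈ S, P (Fin.tail f) (f 0)) (h3 : ∀ g ∈ T, #(univ.filter fun v => P g v) ≤ n) :
    #S ≤ n * #T := by
  apply Finset.card_le_mul_card_image_of_maps_to h1
  intro g hg
  refine le_trans ?_ (h3 g hg)
  apply Finset.card_le_card_of_injOn (fun f => f 0)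
  · intro f hf
    simp only [coe_filter, Set.mem_ofPred_eq, mem_univ, true_and] at hf ⊢
    rw [← hf.2]
    exact h2 f hf.1
  · intro f hf f' hf' e
    simp only [coe_filter, Set.mem_ofPred_eq] at hf hf'
    rw [← Fin.cons_self_tail f, ← Fin.cons_self_tail f', hf.2, hf'.2]
    simp only at e
    rw [e]

lemma N_step (k d : ℕ) :
    N m 0 (k + 1) (d + 1) ≤ 2 ^ (d + 1) * N m 0 k (d + 1) + 2 ^ (2 * m - d) * N m 0 k d := by
  classical
  unfold N
  rw [← Finset.card_filter_add_card_filter_not (s := univ.filter fun g : Fin (k + 1) → SV m =>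
    PW 0 g ∧ dm g = d + 1) (fun f => f 0 ∈ Submodule.span (ZMod 2) (Set.range (Fin.tail f)))]
  apply add_le_add
  · apply count_tail _ _ (fun g v => v ∈ Submodule.span (ZMod 2) (Set.range g))
    · intro f hf
      simp only [mem_filter, mem_univ, true_and] at hf ⊢
      exact ⟨PW_tail hf.1.1, by rw [← dm_mem f hf.2]; exact hf.1.2⟩
    · intro f hf
      simp only [mem_filter, mem_univ, true_and] at hf ⊢
      exact hf.2
    · intro g hg
      simp only [mem_filter, mem_univ, true_and] at hg
      rw [card_sub]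
      have : finrank (ZMod 2) (Submodule.span (ZMod 2) (Set.range g)) = d + 1 := hg.2
      rw [this]
  · apply count_tail _ _ (fun g v => ∀ i, B m (g i) v = 0)
    · intro f hf
      simp only [mem_filter, mem_univ, true_and] at hf ⊢
      refine ⟨PW_tail hf.1.1, ?_⟩
      have := dm_not_mem f hf.2
      omega
    · intro f hf
      simp only [mem_filter, mem_univ, true_and] at hf ⊢
      exact PW_zero hf.1.1
    · intro g hg
      simp only [mem_filter, mem_univ, true_and] at hg
      have h := card_orth g
      rw [hg.2] at h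
      refine le_trans (le_of_eq ?_) (le_of_eq h)
      congr

lemma N_dim_zero (k : ℕ) : N m 0 k 0 ≤ 1 := by
  classical
  unfold N
  rw [Finset.card_le_one]
  intro f hf g hg
  simp only [mem_filter, mem_univ, true_and] at hf hg
  have key : ∀ f : Fin k → SV m, dm f = 0 → f = 0 := by
    intro f hf
    unfold dm at hf
    rw [Submodule.finrank_eq_zero, Submodule.span_eq_bot] at hf
    ext i : 1
    exact hf (f i) ⟨i, rfl⟩
  rw [key f hf.2, key g hg.2]

lemma N_big (k d : ℕ) (h : k < d) : N m 0 k d = 0 := by
  classical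
  unfold N
  rw [Finset.card_eq_zero, Finset.filter_eq_empty_iff]
  rintro g - ⟨-, h2⟩
  have := dm_le' g
  omega

/-- The exponent in the bound. -/
def ex (m k d : ℕ) : ℕ := ∑ j ∈ range d, (2 * m - j) + d * (k - d)

lemma N_le (k : ℕ) : ∀ d ≤ k, N m 0 k d ≤ 2 ^ k * 2 ^ ex m k d := by
  induction k with
  | zero =>
    intro d hd
    obtain rfl : d = 0 := by omega
    refine (N_dim_zero 0).trans ?_
    exact Nat.one_le_iff_ne_zero.2 (by positivity)
  | succ k ih =>
    intro d hd
    rcases d with _ | d
    · refine (N_dim_zero _).trans ?_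
      exact Nat.one_le_iff_ne_zero.2 (by positivity)
    · refine (N_step k d).trans ?_
      have e2 : 2 ^ (2 * m - d) * N m 0 k d ≤ 2 ^ k * 2 ^ ex m (k + 1) (d + 1) := by
        have h := ih d (by omega)
        calc 2 ^ (2 * m - d) * N m 0 k d ≤ 2 ^ (2 * m - d) * (2 ^ k * 2 ^ ex m k d) :=
              Nat.mul_le_mul_left _ h
          _ = 2 ^ k * 2 ^ (2 * m - d + ex m k d) := by rw [pow_add]; ring
          _ ≤ 2 ^ k * 2 ^ ex m (k + 1) (d + 1) := by
              apply Nat.mul_le_mul_left
              apply Nat.pow_le_pow_right (by norm_num)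
              unfold ex
              rw [Finset.sum_range_succ]
              have : d * (k - d) ≤ (d + 1) * (k + 1 - (d + 1)) := by
                have : k + 1 - (d + 1) = k - d := by omega
                rw [this]
                exact Nat.mul_le_mul_right _ (by omega)
              omega
      have e1 : 2 ^ (d + 1) * N m 0 k (d + 1) ≤ 2 ^ k * 2 ^ ex m (k + 1) (d + 1) := by
        rcases Nat.lt_or_ge k (d + 1) with hk | hk
        · rw [N_big _ _ hk]; positivity
        · have h := ih (d + 1) hk
          calc 2 ^ (d + 1) * N m 0 k (d + 1) ≤ 2 ^ (d + 1) * (2 ^ k * 2 ^ ex m k (d + 1)) :=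
                Nat.mul_le_mul_left _ h
            _ = 2 ^ k * 2 ^ (d + 1 + ex m k (d + 1)) := by rw [pow_add]; ring
            _ ≤ 2 ^ k * 2 ^ ex m (k + 1) (d + 1) := by
                apply Nat.mul_le_mul_left
                apply Nat.pow_le_pow_right (by norm_num)
                unfold ex
                have : (d + 1) * (k + 1 - (d + 1)) = (d + 1) * (k - (d + 1)) + (d + 1) := by
                  have : k + 1 - (d + 1) = (k - (d + 1)) + 1 := by omega
                  rw [this]; ring
                omega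
      calc _ ≤ 2 ^ k * 2 ^ ex m (k + 1) (d + 1) + 2 ^ k * 2 ^ ex m (k + 1) (d + 1) :=
            add_le_add e1 e2
        _ = 2 ^ (k + 1) * 2 ^ ex m (k + 1) (d + 1) := by ring

lemma ex_step {k : ℕ} (hmk : m ≤ k) {d : ℕ} (hd : d + 1 ≤ m) : ex m k d ≤ ex m k (d + 1) := by
  obtain ⟨t, rfl⟩ : ∃ t, k = d + 1 + t := ⟨k - (d + 1), by omega⟩
  unfold ex
  rw [Finset.sum_range_succ]
  have h1 : d + 1 + t - d = t + 1 := by omega
  have h2 : d + 1 + t - (d + 1) = t := by omega
  rw [h1, h2]
  have h3 : d * (t + 1) = d * t + d := by ring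
  have h4 : (d + 1) * t = d * t + t := by ring
  rw [h3, h4]
  omega

lemma ex_mono {k : ℕ} (hmk : m ≤ k) {d : ℕ} (hd : d ≤ m) : ex m k d ≤ ex m k m := by
  obtain ⟨t, ht⟩ : ∃ t, m = d + t := ⟨m - d, by omega⟩
  have : ∀ t, d + t ≤ m → ex m k d ≤ ex m k (d + t) := by
    intro t
    induction t with
    | zero => intro _; exact le_rfl
    | succ t ih =>
      intro h
      exact (ih (by omega)).trans (ex_step hmk (d := d + t) (by omega))
  have h := this t (by omega)
  rwa [← ht] at h

open Classical in
/-- The number of `k`-tuples of pairwise orthogonal vectors. -/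
lemma card_PW0 {k : ℕ} (hmk : m ≤ k) :
    #(univ.filter fun g : Fin k → SV m => PW 0 g) ≤ (m + 1) * (2 ^ k * 2 ^ ex m k m) := by
  have h1 : ∀ g ∈ univ.filter (fun g : Fin k → SV m => PW 0 g), dm g ∈ range (m + 1) := by
    intro g hg
    simp only [mem_filter, mem_univ, true_and] at hg
    rw [mem_range]
    have : dm g ≤ m := by
      apply dm_iso
      intro a b
      by_cases hab : a = b
      · rw [hab]; exact B_self _
      · exact hg a b hab
    omega
  rw [Finset.card_eq_sum_card_fiberwise h1]
  calc _ ≤ ∑ d ∈ range (m + 1), 2 ^ k * 2 ^ ex m k m := by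
        apply Finset.sum_le_sum
        intro d hd
        rw [mem_range] at hd
        rw [Finset.filter_filter]
        refine (N_le k d (by omega)).trans ?_
        apply Nat.mul_le_mul_left
        exact Nat.pow_le_pow_right (by norm_num) (ex_mono hmk (by omega))
    _ = _ := by simp

/-- A clique has at most `2 m + 1` members. -/
lemma clique_le {k : ℕ} {g : Fin k → SV m} (h : PW 1 g) : k ≤ 2 * m + 1 := by
  have h1 := dm_clique g h
  have h2 := dm_le g
  omega

open Classical in
/-- The number of `k`-tuples of vectors with all products equal to `1`. -/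
lemma card_PW1 (k : ℕ) :
    #(univ.filter fun g : Fin k → SV m => PW 1 g) ≤ 2 ^ (∑ j ∈ range k, (2 * m - (j - 1))) := by
  induction k with
  | zero =>
    simp only [range_zero, sum_empty, pow_zero]
    refine (Finset.card_le_univ _).trans ?_
    simp
  | succ k ih =>
    rw [Finset.sum_range_succ, pow_add, mul_comm]
    refine le_trans (count_tail _ (univ.filter fun g : Fin k → SV m => PW 1 g)
      (fun g v => ∀ i, B m (g i) v = 1) (2 ^ (2 * m - (k - 1))) ?_ ?_ ?_)
      (Nat.mul_le_mul_left _ ih)
    · intro f hf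
      simp only [mem_filter, mem_univ, true_and] at hf ⊢
      exact PW_tail hf
    · intro f hf
      simp only [mem_filter, mem_univ, true_and] at hf ⊢
      exact PW_zero hf
    · intro g hg
      simp only [mem_filter, mem_univ, true_and] at hg
      have h := card_orth_le g (fun _ => 1)
      refine le_trans (le_trans (le_of_eq ?_) h) (Nat.pow_le_pow_right (by norm_num) ?_)
      · congr
      · have := dm_clique g hg
        omega

lemma sum_exp (d : ℕ) (hd : d ≤ 2 * m + 1) :
    ((∑ j ∈ range d, (2 * m - j) : ℕ) : ℝ) = 2 * m * d - d * (d - 1) / 2 := by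
  induction d with
  | zero => simp
  | succ d ih =>
    rw [Finset.sum_range_succ, Nat.cast_add, ih (by omega), Nat.cast_sub (by omega)]
    push_cast
    ring

lemma ex_eq {k : ℕ} (hmk : m ≤ k) : (ex m k m : ℝ) = m * k + m ^ 2 / 2 + m / 2 := by
  unfold ex
  rw [Nat.cast_add, sum_exp m (by omega), Nat.cast_mul, Nat.cast_sub hmk]
  ring

lemma sum_exp1 (k : ℕ) (hk : k ≤ 2 * m + 1) :
    ((∑ j ∈ range (k + 1), (2 * m - (j - 1)) : ℕ) : ℝ) = 2 * m * (k + 1) - k * (k - 1) / 2 := by
  rw [Finset.sum_range_succ']
  simp only [Nat.add_sub_cancel, Nat.zero_sub, Nat.sub_zero]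
  rw [Nat.cast_add, sum_exp k hk]
  push_cast
  ring

end Pool.Agent.H524PR
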