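import Mathlib
import Pool.Agent.Helper524_PR.Count

/-!
helper524: graphs given by vectors of the symplectic space, and the existence of such graphs with
small cliques and small independent sets.
-/

set_option autoImplicit false

namespace Pool.Agent.H524PR

open Finset Module

open Classical in
lemma card_comp_le {V : Type*} [Fintype V] {n k : ℕ} (i : Fin k → Fin n)
    (hi : Function.Injective i) (T : Finset (Fin k → V)) :
    #(univ.filter fun f : Fin n → V => f ∘ i ∈ T) ≤ #T * Fintype.card V ^ (n - k) := by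
  have hc : Fintype.card ({x : Fin n // x ∉ Set.range i} → V) = Fintype.card V ^ (n - k) := by
    rw [Fintype.card_fun, Fintype.card_subtype_compl]
    congr 1
    have : Fintype.card {x // x ∈ Set.range i} = k := by
      have := Set.card_range_of_injective hi
      rw [Fintype.card_fin] at this
      convert this
    rw [this, Fintype.card_fin]
  rw [← hc, ← Finset.card_univ, ← Finset.card_product]
  apply Finset.card_le_card_of_injOn
    (fun f => (f ∘ i, fun x : {x : Fin n // x ∉ Set.range i} => f x))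
  · intro f hf
    simp only [coe_filter, mem_univ, true_and, Set.mem_ofPred_eq] at hf
    simp only [coe_product, coe_univ, Set.mem_prod, Set.mem_univ, and_true]
    exact hf
  · intro f _ g _ h
    simp only [Prod.mk.injEq] at h
    ext x : 1
    by_cases hx : x ∈ Set.range i
    · obtain ⟨j, rfl⟩ := hx
      exact congrFun h.1 j
    · exact congrFun h.2 ⟨x, hx⟩

open Classical in
lemma exists_avoid {V : Type*} [Fintype V] [Nonempty V] (n k : ℕ) (T : Finset (Fin k → V))
    (h : n ^ k * #T < Fintype.card V ^ k) :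
    ∃ f : Fin n → V, ∀ i : Fin k → Fin n, Function.Injective i → f ∘ i ∉ T := by
  by_contra hcon
  push Not at hcon
  have hkn : k ≤ n := by
    obtain ⟨i, hi, -⟩ := hcon (fun _ => Classical.arbitrary V)
    simpa using Fintype.card_le_of_injective i hi
  have h1 : (univ : Finset (Fin n → V)) ⊆
      (univ.filter fun i : Fin k → Fin n => Function.Injective i).biUnion
        (fun i => univ.filter fun f : Fin n → V => f ∘ i ∈ T) := by
    intro f _
    obtain ⟨i, hi, hf⟩ := hcon f
    simp only [mem_biUnion, mem_filter, mem_univ, true_and]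
    exact ⟨i, hi, hf⟩
  have h2 := (Finset.card_le_card h1).trans (Finset.card_biUnion_le)
  have h3 : ∑ i ∈ (univ.filter fun i : Fin k → Fin n => Function.Injective i),
      #(univ.filter fun f : Fin n → V => f ∘ i ∈ T) ≤
        n ^ k * (#T * Fintype.card V ^ (n - k)) := by
    calc _ ≤ ∑ i ∈ (univ.filter fun i : Fin k → Fin n => Function.Injective i),
          (#T * Fintype.card V ^ (n - k)) := by
          apply Finset.sum_le_sum
          intro i hi
          simp only [mem_filter, mem_univ, true_and] at hi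
          exact card_comp_le i hi T
      _ ≤ ∑ i : Fin k → Fin n, (#T * Fintype.card V ^ (n - k)) :=
          Finset.sum_le_sum_of_subset (Finset.filter_subset _ _)
      _ = _ := by simp
  rw [Finset.card_univ, Fintype.card_fun, Fintype.card_fin] at h2
  have h4 : Fintype.card V ^ n = Fintype.card V ^ k * Fintype.card V ^ (n - k) := by
    rw [← pow_add]; congr 1; omega
  have h5 : 0 < Fintype.card V ^ (n - k) := by
    have : 0 < Fintype.card V := Fintype.card_pos
    positivity
  have h6 := Nat.mul_lt_mul_of_pos_right h h5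
  rw [h4] at h2
  have h7 := h2.trans h3
  rw [← mul_assoc] at h7
  omega

variable {m : ℕ}

/-- The graph given by a family of vectors: different `x`, `y` are adjacent if the product is `1`. -/
def GV {ι : Type*} (f : ι → SV m) : SimpleGraph ι where
  Adj x y := B m (f x) (f y) = 1
  symm := ⟨fun x y h => by rw [B_symm]; exact h⟩
  loopless := ⟨fun x h => by rw [B_self] at h; exact zero_ne_one h⟩

lemma zmod2 (a : ZMod 2) : a = 0 ∨ a = 1 := by
  revert a; decide

lemma GV_not_adj {ι : Type*} (f : ι → SV m) (x y : ι) :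
    ¬ (GV f).Adj x y ↔ B m (f x) (f y) = 0 := by
  show ¬ (B m (f x) (f y) = 1) ↔ _
  rcases zmod2 (B m (f x) (f y)) with h | h <;> rw [h] <;> simp

/-- No monochromatic `K_k`: neither `k` pairwise adjacent nor `k` pairwise non-adjacent vertices. -/
def NoMono {ι : Type*} (G : SimpleGraph ι) (k : ℕ) : Prop := G.CliqueFree k ∧ Gᶜ.CliqueFree k

/-- From a finite set of `k` vertices to an injective family. -/
lemma family {n k : ℕ} (s : Finset (Fin n)) (hs : #s = k) :
    ∃ i : Fin k → Fin n, Function.Injective i ∧ ∀ a, i a ∈ s :=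
  ⟨s.orderEmbOfFin hs, (s.orderEmbOfFin hs).injective, fun a => s.orderEmbOfFin_mem hs a⟩

lemma noMono_of {n k : ℕ} (f : Fin n → SV m)
    (h : ∀ i : Fin k → Fin n, Function.Injective i → ¬ PW 0 (f ∘ i) ∧ ¬ PW 1 (f ∘ i)) :
    NoMono (GV f) k := by
  constructor
  · intro s hs
    obtain ⟨i, hi, his⟩ := family s hs.card_eq
    apply (h i hi).2
    intro a b hab
    exact hs.isClique (his a) (his b) (fun e => hab (hi e))
  · intro s hs
    obtain ⟨i, hi, his⟩ := family s hs.card_eq
    apply (h i hi).1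
    intro a b hab
    have := hs.isClique (his a) (his b) (fun e => hab (hi e))
    rw [SimpleGraph.compl_adj] at this
    exact (GV_not_adj f _ _).1 this.2

/-- Existence, in the form of an inequality between natural numbers. -/
lemma exists_GV (n k : ℕ) (hmk : m ≤ k)
    (h : n ^ k * ((m + 1) * (2 ^ k * 2 ^ ex m k m)) +
      n ^ k * (if k ≤ 2 * m + 1 then 2 ^ (∑ j ∈ range k, (2 * m - (j - 1))) else 0) <
        (2 ^ (2 * m)) ^ k) :
    ∃ f : Fin n → SV m, NoMono (GV f) k := by
  classical
  obtain ⟨f, hf⟩ := exists_avoid n k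
    ((univ.filter fun g : Fin k → SV m => PW 0 g) ∪ (univ.filter fun g : Fin k → SV m => PW 1 g)) (by
      rw [card_SV]
      refine lt_of_le_of_lt (Nat.mul_le_mul_left _ (Finset.card_union_le _ _)) ?_
      rw [mul_add]
      refine lt_of_le_of_lt (add_le_add (Nat.mul_le_mul_left _ ?_)
        (Nat.mul_le_mul_left _ ?_)) h
      · convert card_PW0 hmk
      · split_ifs with hk
        · convert card_PW1 k
        · rw [Nat.le_zero, Finset.card_eq_zero, Finset.filter_eq_empty_iff]
          intro g _ hg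
          exact hk (clique_le hg))
  refine ⟨f, noMono_of f ?_⟩
  intro i hi
  have := hf i hi
  simp only [mem_union, mem_filter, mem_univ, true_and, not_or] at this
  exact this

/-- Existence. -/
lemma exists_GV' (n k : ℕ) (hk : 2 ≤ k) (hmk : m ≤ k)
    (hn : (n : ℝ) ≤ (2 : ℝ) ^ ((m : ℝ) - m ^ 2 / (2 * k) - 3)) :
    ∃ f : Fin n → SV m, NoMono (GV f) k := by
  have hk0 : (0 : ℝ) < k := by exact_mod_cast (by omega : 0 < k)
  have hmk' : (m : ℝ) ≤ k := by exact_mod_cast hmk
  have hm0 : (0 : ℝ) ≤ m := by positivity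
  have hnk : (n : ℝ) ^ k ≤ (2 : ℝ) ^ ((m : ℝ) * k - m ^ 2 / 2 - 3 * k) := by
    calc (n : ℝ) ^ k ≤ ((2 : ℝ) ^ ((m : ℝ) - m ^ 2 / (2 * k) - 3)) ^ k :=
          pow_le_pow_left₀ (by positivity) hn k
      _ = (2 : ℝ) ^ (((m : ℝ) - m ^ 2 / (2 * k) - 3) * k) := by
          rw [Real.rpow_mul (by norm_num), Real.rpow_natCast]
      _ = _ := by
          congr 1
          field_simp
  apply exists_GV n k hmk
  have goal : (n : ℝ) ^ k * ((m + 1) * (2 ^ k * 2 ^ ex m k m)) +
      (n : ℝ) ^ k * (if k ≤ 2 * m + 1 then 2 ^ (∑ j ∈ range k, (2 * m - (j - 1))) else 0) <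
        (2 ^ (2 * m)) ^ k := by
    have e1 : (n : ℝ) ^ k * ((m + 1) * (2 ^ k * 2 ^ ex m k m)) ≤
        (2 : ℝ) ^ ((2 : ℝ) * m * k) * (1 / 2) := by
      have h1 : ((m : ℝ) + 1) ≤ (2 : ℝ) ^ (m : ℝ) := by
        rw [Real.rpow_natCast]
        exact_mod_cast Nat.lt_two_pow_self
      have h2 : (2 : ℝ) ^ ex m k m = (2 : ℝ) ^ ((m : ℝ) * k + m ^ 2 / 2 + m / 2) := by
        rw [← ex_eq hmk, Real.rpow_natCast]
      calc (n : ℝ) ^ k * ((m + 1) * (2 ^ k * 2 ^ ex m k m))
          ≤ (2 : ℝ) ^ ((m : ℝ) * k - m ^ 2 / 2 - 3 * k) * ((2 : ℝ) ^ (m : ℝ) *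
            ((2 : ℝ) ^ (k : ℝ) * (2 : ℝ) ^ ((m : ℝ) * k + m ^ 2 / 2 + m / 2))) := by
            rw [h2, Real.rpow_natCast 2 k]
            gcongr
        _ = (2 : ℝ) ^ ((2 : ℝ) * m * k + (- 2 * k + 3 / 2 * m)) := by
            rw [← Real.rpow_add (by norm_num), ← Real.rpow_add (by norm_num),
              ← Real.rpow_add (by norm_num)]
            congr 1
            ring
        _ = (2 : ℝ) ^ ((2 : ℝ) * m * k) * (2 : ℝ) ^ (- 2 * (k : ℝ) + 3 / 2 * m) := by
            rw [Real.rpow_add (by norm_num)]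
        _ ≤ (2 : ℝ) ^ ((2 : ℝ) * m * k) * (1 / 2) := by
            apply mul_le_mul_of_nonneg_left _ (by positivity)
            have : (2 : ℝ) ^ (- 2 * (k : ℝ) + 3 / 2 * m) ≤ (2 : ℝ) ^ (-1 : ℝ) := by
              apply Real.rpow_le_rpow_of_exponent_le (by norm_num)
              have : (2 : ℝ) ≤ k := by exact_mod_cast hk
              linarith
            refine this.trans (le_of_eq ?_)
            rw [Real.rpow_neg_one]
            norm_num
    have e2 : (n : ℝ) ^ k *
        (if k ≤ 2 * m + 1 then 2 ^ (∑ j ∈ range k, (2 * m - (j - 1))) else 0) <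
        (2 : ℝ) ^ ((2 : ℝ) * m * k) * (1 / 2) := by
      split_ifs with h
      · obtain ⟨l, rfl⟩ : ∃ l, k = l + 1 := ⟨k - 1, by omega⟩
        have h2 : (2 : ℝ) ^ (∑ j ∈ range (l + 1), (2 * m - (j - 1))) =
            (2 : ℝ) ^ (2 * (m : ℝ) * (l + 1) - l * (l - 1) / 2) := by
          rw [← sum_exp1 l (by omega), Real.rpow_natCast]
        calc (n : ℝ) ^ (l + 1) * 2 ^ (∑ j ∈ range (l + 1), (2 * m - (j - 1)))
            ≤ (2 : ℝ) ^ ((m : ℝ) * ((l + 1 : ℕ) : ℝ) - m ^ 2 / 2 - 3 * ((l + 1 : ℕ) : ℝ)) *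
              (2 : ℝ) ^ (2 * (m : ℝ) * (l + 1) - l * (l - 1) / 2) := by
              rw [h2]
              gcongr
          _ = (2 : ℝ) ^ ((2 : ℝ) * m * ((l + 1 : ℕ) : ℝ) +
              ((m : ℝ) * (l + 1) - m ^ 2 / 2 - 3 * (l + 1) - l * (l - 1) / 2)) := by
              rw [← Real.rpow_add (by norm_num)]
              congr 1
              push_cast
              ring
          _ = (2 : ℝ) ^ ((2 : ℝ) * m * ((l + 1 : ℕ) : ℝ)) *
              (2 : ℝ) ^ ((m : ℝ) * (l + 1) - m ^ 2 / 2 - 3 * (l + 1) - l * (l - 1) / 2) := by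
              rw [Real.rpow_add (by norm_num)]
          _ < (2 : ℝ) ^ ((2 : ℝ) * m * ((l + 1 : ℕ) : ℝ)) * (1 / 2) := by
              apply mul_lt_mul_of_pos_left _ (by positivity)
              have : (2 : ℝ) ^ ((m : ℝ) * (l + 1) - m ^ 2 / 2 - 3 * (l + 1) - l * (l - 1) / 2) <
                  (2 : ℝ) ^ (-1 : ℝ) := by
                apply Real.rpow_lt_rpow_of_exponent_lt (by norm_num)
                have hl : (1 : ℝ) ≤ l := by exact_mod_cast (by omega : 1 ≤ l)
                nlinarith [sq_nonneg ((m : ℝ) - (l + 1))]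
              refine this.trans_le (le_of_eq ?_)
              rw [Real.rpow_neg_one]
              norm_num
      · rw [mul_zero]; positivity
    have e3 : ((2 : ℝ) ^ (2 * m)) ^ k = (2 : ℝ) ^ ((2 : ℝ) * m * k) := by
      rw [← pow_mul, ← Real.rpow_natCast]
      push_cast
      rfl
    rw [e3]
    linarith
  have : (((n ^ k * ((m + 1) * (2 ^ k * 2 ^ ex m k m)) +
      n ^ k * (if k ≤ 2 * m + 1 then 2 ^ (∑ j ∈ range k, (2 * m - (j - 1))) else 0) : ℕ)) : ℝ) <
        (((2 ^ (2 * m)) ^ k : ℕ) : ℝ) := by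
    push_cast
    exact goal
  exact_mod_cast this

end Pool.Agent.H524PR
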