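import Mathlib
import Pool.Agent.Helper524_PR.Exist

/-!
helper524: the symplectic spread gives an upper bound for the number of vertices of a graph of
bounded rank over the field with two elements.
-/

set_option autoImplicit false

namespace Pool.Agent.H524PR

open Finset Module

variable {m : ℕ}

/-! ### The spread -/

section spread

variable (m) [NeZero m]

/-- The field with `2 ^ m` elements. -/
abbrev GF := GaloisField 2 m

noncomputable def bs : Basis (Fin m) (ZMod 2) (GF m) :=
  finBasisOfFinrankEq (ZMod 2) (GF m) (GaloisField.finrank 2 (NeZero.ne m))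

omit [NeZero m] in
lemma tf_nondeg : (Algebra.traceForm (ZMod 2) (GF m)).Nondegenerate := traceForm_nondegenerate _ _

noncomputable def bs' : Basis (Fin m) (ZMod 2) (GF m) :=
  LinearMap.BilinForm.dualBasis (Algebra.traceForm (ZMod 2) (GF m)) (tf_nondeg m) (bs m)

/-- The first coordinate in the field. -/
noncomputable def al (u : SV m) : GF m := ∑ i, u.1 i • bs m i
/-- The second coordinate in the field. -/
noncomputable def be (u : SV m) : GF m := ∑ i, u.2 i • bs' m i

lemma tf_al_be (u v : SV m) :
    Algebra.traceForm (ZMod 2) (GF m) (al m u) (be m v) = u.1 ⬝ᵥ v.2 := by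
  unfold al be
  simp only [map_sum, LinearMap.sum_apply, map_smul, LinearMap.smul_apply, smul_eq_mul]
  have h : ∀ i j, Algebra.traceForm (ZMod 2) (GF m) (bs m i) (bs' m j) = if i = j then 1 else 0 :=
    fun i j => LinearMap.BilinForm.apply_dualBasis_right (tf_nondeg m)
      (Algebra.traceForm_isSymm _) (bs m) i j
  simp only [h]
  simp only [dotProduct, mul_ite, mul_one, mul_zero, Finset.sum_ite_eq, mem_univ, if_true,
    Finset.sum_ite_eq']
  exact Finset.sum_congr rfl (fun i _ => mul_comm _ _)

lemma B_eq_trace (u v : SV m) :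
    B m u v = Algebra.trace (ZMod 2) (GF m) (al m u * be m v + al m v * be m u) := by
  rw [map_add, ← Algebra.traceForm_apply, ← Algebra.traceForm_apply, tf_al_be, tf_al_be, B_apply,
    dotProduct_comm u.2]

open Classical in
/-- The slope of a vector. -/
noncomputable def slope (u : SV m) : Option (GF m) :=
  if al m u = 0 then none else some (be m u / al m u)

lemma B_slope {u v : SV m} (h : slope m u = slope m v) : B m u v = 0 := by
  rw [B_eq_trace]
  unfold slope at h
  by_cases hu : al m u = 0
  · by_cases hv : al m v = 0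
    · rw [hu, hv]; simp
    · simp [hu, hv] at h
  · by_cases hv : al m v = 0
    · simp [hu, hv] at h
    · simp only [hu, hv, if_false, Option.some.injEq] at h
      rw [div_eq_div_iff hu hv] at h
      have : al m u * be m v + al m v * be m u = 0 := by
        rw [mul_comm (al m v), h, mul_comm (be m v)]
        exact CharTwo.add_self_eq_zero _
      rw [this, map_zero]

end spread

/-- **Upper bound.** If there are no `k` pairwise orthogonal vectors in the family `f` then it has
at most `(k - 1) (2 ^ m + 1)` members. -/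
lemma card_le_of_iso {ι : Type*} [Fintype ι] (f : ι → SV m) (k : ℕ)
    (h : ∀ s : Finset ι, (∀ x ∈ s, ∀ y ∈ s, x ≠ y → B m (f x) (f y) = 0) → #s < k) :
    Fintype.card ι ≤ (k - 1) * (2 ^ m + 1) := by
  classical
  rcases Nat.eq_zero_or_pos m with rfl | hm
  · have := h univ (fun x _ y _ _ => by simp [B_apply])
    rw [Finset.card_univ] at this
    simp only [pow_zero]
    omega
  · have : NeZero m := ⟨hm.ne'⟩
    by_contra hcon
    push Not at hcon
    have : Fintype (GF m) := Fintype.ofFinite _
    have hcard : Fintype.card (Option (GF m)) = 2 ^ m + 1 := by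
      rw [Fintype.card_option, ← Nat.card_eq_fintype_card, GaloisField.card 2 m hm.ne']
    obtain ⟨s, hs⟩ := Fintype.exists_lt_card_fiber_of_mul_lt_card (n := k - 1)
      (fun x => slope m (f x)) (by rw [hcard, mul_comm]; exact hcon)
    have h1 := h (univ.filter fun x => slope m (f x) = s) (by
      intro x hx y hy _
      simp only [mem_filter, mem_univ, true_and] at hx hy
      exact B_slope m (hx.trans hy.symm))
    omega

/-! ### Matrices of small rank -/

/-- The adjacency matrix over the field with two elements. -/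
noncomputable def adj2 {ι : Type*} (G : SimpleGraph ι) : Matrix ι ι (ZMod 2) := by
  classical
  exact fun x y => if G.Adj x y then 1 else 0

lemma adj2_eq_one {ι : Type*} (G : SimpleGraph ι) (x y : ι) : adj2 G x y = 1 ↔ G.Adj x y := by
  unfold adj2
  split_ifs with h <;> simp [h]

lemma adj2_eq_zero {ι : Type*} (G : SimpleGraph ι) (x y : ι) : adj2 G x y = 0 ↔ ¬ G.Adj x y := by
  unfold adj2
  split_ifs with h <;> simp [h]

lemma adj2_GV {ι : Type*} (f : ι → SV m) (x y : ι) : adj2 (GV f) x y = B m (f x) (f y) := by
  rcases zmod2 (B m (f x) (f y)) with h | h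
  · rw [h, adj2_eq_zero, GV_not_adj]; exact h
  · rw [h, adj2_eq_one]; exact h

lemma rank_GV {ι : Type*} [Fintype ι] (f : ι → SV m) : (adj2 (GV f)).rank ≤ 2 * m := by
  let P : Matrix ι (Fin m ⊕ Fin m) (ZMod 2) := fun x => Sum.elim (f x).1 (f x).2
  let Q : Matrix (Fin m ⊕ Fin m) ι (ZMod 2) := fun i y => Sum.elim (f y).2 (f y).1 i
  have h : adj2 (GV f) = P * Q := by
    ext x y
    rw [adj2_GV, Matrix.mul_apply, Fintype.sum_sum_type, B_apply]
    rfl
  rw [h]
  refine (Matrix.rank_mul_le_left P Q).trans ((Matrix.rank_le_card_width P).trans ?_)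
  simp
  omega

/-- Adding one hyperbolic plane. -/
def ext1 (w : SV m) (a b : ZMod 2) : SV (m + 1) := (Fin.cons a w.1, Fin.cons b w.2)

lemma B_ext1 (w w' : SV m) (a b a' b' : ZMod 2) :
    B (m + 1) (ext1 w a b) (ext1 w' a' b') = B m w w' + (a * b' + b * a') := by
  simp only [B_apply, ext1, dotProduct, Fin.sum_univ_succ, Fin.cons_zero, Fin.cons_succ]
  ring

lemma rank_step {ι : Type*} [Fintype ι] (A : Matrix ι ι (ZMod 2)) (hs : ∀ x y, A x y = A y x)
    (h0 : ∀ x, A x x = 0) (u v : ι) (huv : A u v = 1) :
    (Matrix.of fun x y => A x y + A x u * A v y + A x v * A u y).rank + 2 ≤ A.rank := by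
  classical
  set A' : Matrix ι ι (ZMod 2) := Matrix.of fun x y => A x y + A x u * A v y + A x v * A u y with hA'
  rw [Matrix.rank_eq_finrank_span_row, Matrix.rank_eq_finrank_span_row]
  set W := Submodule.span (ZMod 2) (Set.range A.row) with hW
  set W' := Submodule.span (ZMod 2) (Set.range A'.row) with hW'
  let π : (ι → ZMod 2) →ₗ[ZMod 2] (ZMod 2 × ZMod 2) :=
    (LinearMap.proj u).prod (LinearMap.proj v)
  have hle : W' ≤ W ⊓ LinearMap.ker π := by
    rw [hW', Submodule.span_le]
    rintro _ ⟨x, rfl⟩
    have hrow : A'.row x = A.row x + A x u • A.row v + A x v • A.row u := by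
      ext y
      simp [A', Matrix.row]
    constructor
    · rw [hrow]
      refine Submodule.add_mem _ (Submodule.add_mem _ ?_ ?_) ?_
      · exact Submodule.subset_span ⟨x, rfl⟩
      · exact Submodule.smul_mem _ _ (Submodule.subset_span ⟨v, rfl⟩)
      · exact Submodule.smul_mem _ _ (Submodule.subset_span ⟨u, rfl⟩)
    · rw [SetLike.mem_coe, LinearMap.mem_ker]
      have hvu : A v u = 1 := by rw [hs]; exact huv
      have e1 : A' x u = 0 := by
        simp only [A', Matrix.of_apply, hvu, h0 u, mul_one, mul_zero, add_zero]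
        exact CharTwo.add_self_eq_zero _
      have e2 : A' x v = 0 := by
        simp only [A', Matrix.of_apply, huv, h0 v, mul_one, mul_zero, add_zero]
        exact CharTwo.add_self_eq_zero _
      show (A' x u, A' x v) = 0
      rw [e1, e2]
      rfl
  have hsurj : LinearMap.range (π.domRestrict W) = ⊤ := by
    rw [LinearMap.range_eq_top]
    rintro ⟨a, b⟩
    refine ⟨⟨a • A.row v + b • A.row u, Submodule.add_mem _
      (Submodule.smul_mem _ _ (Submodule.subset_span ⟨v, rfl⟩))
      (Submodule.smul_mem _ _ (Submodule.subset_span ⟨u, rfl⟩))⟩, ?_⟩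
    have hvu : A v u = 1 := by rw [hs]; exact huv
    show (a • A v u + b • A u u, a • A v v + b • A u v) = (a, b)
    simp [hvu, huv, h0]
  have hker := LinearMap.finrank_range_add_finrank_ker (π.domRestrict W)
  rw [hsurj, finrank_top] at hker
  have h2 : finrank (ZMod 2) (ZMod 2 × ZMod 2) = 2 := by simp
  rw [h2] at hker
  have h3 : finrank (ZMod 2) W' ≤ finrank (ZMod 2) (LinearMap.ker (π.domRestrict W)) := by
    have h4 : W' ≤ (LinearMap.ker (π.domRestrict W)).map W.subtype := by
      intro w hw
      have := hle hw
      exact ⟨⟨w, this.1⟩, this.2, rfl⟩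
    exact (Submodule.finrank_mono h4).trans (Submodule.finrank_map_le _ _)
  omega

/-- A symmetric matrix with zero diagonal of rank at most `r` comes from vectors of a symplectic
space of dimension at most `r`. -/
lemma represent {ι : Type*} [Fintype ι] (r : ℕ) : ∀ (A : Matrix ι ι (ZMod 2)),
    (∀ x y, A x y = A y x) → (∀ x, A x x = 0) → A.rank ≤ r →
    ∃ (m : ℕ) (f : ι → SV m), 2 * m ≤ r ∧ ∀ x y, A x y = B m (f x) (f y) := by
  induction r using Nat.strong_induction_on with
  | _ r ih =>
    intro A hs h0 hr
    by_cases hA : ∀ x y, A x y = 0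
    · exact ⟨0, fun _ => 0, by omega, fun x y => by simp [hA]⟩
    · push Not at hA
      obtain ⟨u, v, huv⟩ := hA
      have huv : A u v = 1 := (zmod2 _).resolve_left huv
      have hstep := rank_step A hs h0 u v huv
      have hr2 : 2 ≤ r := by omega
      obtain ⟨m, f, hm, hf⟩ := ih (r - 2) (by omega)
        (Matrix.of fun x y => A x y + A x u * A v y + A x v * A u y)
        (by
          intro x y
          simp only [Matrix.of_apply]
          rw [hs y x, hs y u, hs v x, hs y v, hs u x]
          ring)
        (by
          intro x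
          simp only [Matrix.of_apply]
          rw [h0, hs v x, hs u x, zero_add, mul_comm (A x v)]
          exact CharTwo.add_self_eq_zero _)
        (by omega)
      refine ⟨m + 1, fun x => ext1 (f x) (A x u) (A x v), by omega, ?_⟩
      intro x y
      rw [B_ext1, ← hf]
      simp only [Matrix.of_apply]
      rw [hs v y, hs u y]
      have : A x y + A x u * A y v + A x v * A y u + (A x u * A y v + A x v * A y u) =
          A x y + ((A x u * A y v + A x v * A y u) + (A x u * A y v + A x v * A y u)) := by ring
      rw [this, CharTwo.add_self_eq_zero, add_zero]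

/-- **Upper bound for the adjacency rank.** -/
lemma upper_zero {ι : Type*} [Fintype ι] (G : SimpleGraph ι) (r k : ℕ)
    (hr : (adj2 G).rank ≤ r) (hk : Gᶜ.CliqueFree k) :
    Fintype.card ι ≤ (k - 1) * (2 ^ (r / 2) + 1) := by
  classical
  obtain ⟨m, f, hm, hf⟩ := represent r (adj2 G)
    (by
      intro x y
      rcases zmod2 (adj2 G y x) with h | h
      · rw [h, adj2_eq_zero, G.adj_comm, ← adj2_eq_zero]; exact h
      · rw [h, adj2_eq_one, G.adj_comm, ← adj2_eq_one]; exact h)
    (by intro x; rw [adj2_eq_zero]; exact G.loopless.irrefl x) hr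
  have h1 := card_le_of_iso f k (by
    intro s hs
    by_contra hcon
    push Not at hcon
    obtain ⟨t, hts, htk⟩ := Finset.exists_subset_card_eq hcon
    apply hk t
    refine ⟨?_, htk⟩
    intro x hx y hy hxy
    rw [SimpleGraph.compl_adj]
    refine ⟨hxy, ?_⟩
    rw [← adj2_eq_zero, hf]
    exact hs x (hts hx) y (hts hy) hxy)
  refine h1.trans ?_
  have : 2 ^ m ≤ 2 ^ (r / 2) := Nat.pow_le_pow_right (by norm_num) (by omega)
  gcongr

end Pool.Agent.H524PR
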