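import Mathlib
import Pool.Agent.Helper524_PR.Upper

/-!
helper524: colourings given above the diagonal by a bilinear form of small rank.
-/

set_option autoImplicit false

namespace Pool.Agent.H524PR

open Finset Module

variable {r : ℕ}

/-- For all `i < j` the product of the first vector of `g i` and the second vector of `g j` is
`c`. -/
def OW (c : ZMod 2) {k : ℕ} (g : Fin k → SV r) : Prop := ∀ a b, a < b → (g a).1 ⬝ᵥ (g b).2 = c

/-- The second vectors, embedded in the symplectic space. -/
def sec {k : ℕ} (g : Fin k → SV r) : Fin k → SV r := fun i => (0, (g i).2)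

lemma B_sec {k : ℕ} (g : Fin k → SV r) (i : Fin k) (v : SV r) :
    B r (sec g i) v = v.1 ⬝ᵥ (g i).2 := by
  simp [B_apply, sec, dotProduct_comm]

lemma sec_tail {k : ℕ} (f : Fin (k + 1) → SV r) : sec (Fin.tail f) = Fin.tail (sec f) := rfl

lemma OW_tail {c : ZMod 2} {k : ℕ} {f : Fin (k + 1) → SV r} (h : OW c f) : OW c (Fin.tail f) :=
  fun a b hab => h a.succ b.succ (Fin.succ_lt_succ_iff.2 hab)

lemma OW_zero {c : ZMod 2} {k : ℕ} {f : Fin (k + 1) → SV r} (h : OW c f) (i : Fin k) :
    B r (sec (Fin.tail f) i) (f 0) = c := by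
  rw [B_sec]
  exact h 0 i.succ (Fin.succ_pos i)

lemma dm_sec_le {k : ℕ} (g : Fin k → SV r) : dm (sec g) ≤ r := by
  apply dm_iso
  intro a b
  rw [B_sec]
  simp [sec]

open Classical in
/-- The number of `k`-tuples with all products `c`, the second vectors spanning `d` dimensions. -/
noncomputable def NO (r : ℕ) (c : ZMod 2) (k d : ℕ) : ℕ :=
  #(univ.filter fun g : Fin k → SV r => OW c g ∧ dm (sec g) = d)

open Classical in
lemma card_first {k : ℕ} (g : Fin k → SV r) (c : ZMod 2) :
    #(univ.filter fun a : Fin r → ZMod 2 => ∀ i, a ⬝ᵥ (g i).2 = c) * 2 ^ r ≤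
      2 ^ (2 * r - dm (sec g)) := by
  have h := card_orth_le (sec g) (fun _ => c)
  refine le_trans (le_of_eq ?_) h
  have : (univ.filter fun v : SV r => ∀ i, B r (sec g i) v = c) =
      (univ.filter fun a : Fin r → ZMod 2 => ∀ i, a ⬝ᵥ (g i).2 = c) ×ˢ univ := by
    ext v
    simp only [mem_filter, mem_univ, true_and, mem_product, and_true, B_sec]
  rw [this, Finset.card_product]
  congr 1
  simp

open Classical in
lemma card_second {k : ℕ} (g : Fin k → SV r) :
    #(univ.filter fun b : Fin r → ZMod 2 =>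
      ((0, b) : SV r) ∈ Submodule.span (ZMod 2) (Set.range (sec g))) ≤ 2 ^ dm (sec g) := by
  rw [dm, ← card_sub]
  apply Finset.card_le_card_of_injOn (fun b => ((0, b) : SV r))
  · intro b hb
    simpa using hb
  · intro b _ b' _ h
    simpa using h

lemma NO_step (c : ZMod 2) (k d : ℕ) :
    NO r c (k + 1) (d + 1) ≤ 2 ^ r * NO r c k (d + 1) + 2 ^ (2 * r - d) * NO r c k d := by
  classical
  unfold NO
  rw [← Finset.card_filter_add_card_filter_not (s := univ.filter fun g : Fin (k + 1) → SV r =>
    OW c g ∧ dm (sec g) = d + 1)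
    (fun f => sec f 0 ∈ Submodule.span (ZMod 2) (Set.range (sec (Fin.tail f))))]
  apply add_le_add
  · apply count_tail _ _ (fun g v => (∀ i, v.1 ⬝ᵥ (g i).2 = c) ∧
      ((0, v.2) : SV r) ∈ Submodule.span (ZMod 2) (Set.range (sec g)))
    · intro f hf
      simp only [mem_filter, mem_univ, true_and] at hf ⊢
      refine ⟨OW_tail hf.1.1, ?_⟩
      rw [sec_tail, ← dm_mem (sec f) hf.2]
      exact hf.1.2
    · intro f hf
      simp only [mem_filter, mem_univ, true_and] at hf ⊢
      refine ⟨fun i => ?_, hf.2⟩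
      rw [← B_sec]
      exact OW_zero hf.1.1 i
    · intro g hg
      simp only [mem_filter, mem_univ, true_and] at hg
      have h1 := card_first g c
      have h2 := card_second g
      have h3 : (univ.filter fun v : SV r => (∀ i, v.1 ⬝ᵥ (g i).2 = c) ∧
          ((0, v.2) : SV r) ∈ Submodule.span (ZMod 2) (Set.range (sec g))) =
          (univ.filter fun a : Fin r → ZMod 2 => ∀ i, a ⬝ᵥ (g i).2 = c) ×ˢ
          (univ.filter fun b : Fin r → ZMod 2 =>
            ((0, b) : SV r) ∈ Submodule.span (ZMod 2) (Set.range (sec g))) := by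
        ext v
        simp only [mem_filter, mem_univ, true_and, mem_product]
      have h4 := dm_sec_le g
      have h5 : 2 ^ (2 * r - dm (sec g)) = 2 ^ (r - dm (sec g)) * 2 ^ r := by
        rw [← pow_add]; congr 1; omega
      rw [h5] at h1
      have h6 := Nat.le_of_mul_le_mul_right h1 (by positivity)
      have h7 : 2 ^ r = 2 ^ (r - dm (sec g)) * 2 ^ dm (sec g) := by
        rw [← pow_add]; congr 1; omega
      have h8 := Nat.mul_le_mul h6 h2
      rw [← h7, ← Finset.card_product, ← h3] at h8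
      refine le_trans (le_of_eq ?_) h8
      congr
  · apply count_tail _ _ (fun g v => ∀ i, B r (sec g i) v = c)
    · intro f hf
      simp only [mem_filter, mem_univ, true_and] at hf ⊢
      refine ⟨OW_tail hf.1.1, ?_⟩
      have := dm_not_mem (sec f) hf.2
      rw [← sec_tail] at this
      omega
    · intro f hf
      simp only [mem_filter, mem_univ, true_and] at hf ⊢
      exact OW_zero hf.1.1
    · intro g hg
      simp only [mem_filter, mem_univ, true_and] at hg
      have h := card_orth_le (sec g) (fun _ => c)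
      rw [hg.2] at h
      refine le_trans (le_of_eq ?_) h
      congr

/-- All second vectors are zero. -/
lemma NO_dim_zero (c : ZMod 2) (k : ℕ) : NO r c k 0 ≤ 2 ^ (r * k) := by
  classical
  unfold NO
  calc _ ≤ #(univ : Finset (Fin k → Fin r → ZMod 2)) := by
        apply Finset.card_le_card_of_injOn (fun g => fun i => (g i).1)
        · intro g _; simp
        · intro f hf g hg h
          simp only [coe_filter, mem_univ, true_and, Set.mem_ofPred_eq] at hf hg
          have key : ∀ f : Fin k → SV r, dm (sec f) = 0 → ∀ i, (f i).2 = 0 := by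
            intro f hf i
            unfold dm at hf
            rw [Submodule.finrank_eq_zero, Submodule.span_eq_bot] at hf
            have := hf (sec f i) ⟨i, rfl⟩
            simpa [sec] using this
          ext i : 1
          apply Prod.ext
          · exact congrFun h i
          · rw [key f hf.2 i, key g hg.2 i]
    _ = _ := by
        rw [Finset.card_univ]
        simp [pow_mul]

lemma NO_big (c : ZMod 2) (k d : ℕ) (h : k < d) : NO r c k d = 0 := by
  classical
  unfold NO
  rw [Finset.card_eq_zero, Finset.filter_eq_empty_iff]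
  rintro g - ⟨-, h2⟩
  have := dm_le' (sec g)
  omega

/-- The exponent in the bound. -/
def exO (r k d : ℕ) : ℕ := ∑ j ∈ range d, (2 * r - j) + r * (k - d)

lemma NO_le (c : ZMod 2) (k : ℕ) : ∀ d ≤ k, NO r c k d ≤ 2 ^ k * 2 ^ exO r k d := by
  induction k with
  | zero =>
    intro d hd
    obtain rfl : d = 0 := by omega
    refine (NO_dim_zero c 0).trans ?_
    simp [exO]
  | succ k ih =>
    intro d hd
    rcases d with _ | d
    · refine (NO_dim_zero c _).trans ?_
      simp only [exO, range_zero, sum_empty, Nat.sub_zero, zero_add]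
      exact Nat.le_mul_of_pos_left _ (by positivity)
    · refine (NO_step c k d).trans ?_
      have e2 : 2 ^ (2 * r - d) * NO r c k d ≤ 2 ^ k * 2 ^ exO r (k + 1) (d + 1) := by
        have h := ih d (by omega)
        calc 2 ^ (2 * r - d) * NO r c k d ≤ 2 ^ (2 * r - d) * (2 ^ k * 2 ^ exO r k d) :=
              Nat.mul_le_mul_left _ h
          _ = 2 ^ k * 2 ^ (2 * r - d + exO r k d) := by rw [pow_add]; ring
          _ ≤ 2 ^ k * 2 ^ exO r (k + 1) (d + 1) := by
              apply Nat.mul_le_mul_left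
              apply Nat.pow_le_pow_right (by norm_num)
              unfold exO
              rw [Finset.sum_range_succ]
              have : k + 1 - (d + 1) = k - d := by omega
              rw [this]
              omega
      have e1 : 2 ^ r * NO r c k (d + 1) ≤ 2 ^ k * 2 ^ exO r (k + 1) (d + 1) := by
        rcases Nat.lt_or_ge k (d + 1) with hk | hk
        · rw [NO_big _ _ _ hk]; positivity
        · have h := ih (d + 1) hk
          calc 2 ^ r * NO r c k (d + 1) ≤ 2 ^ r * (2 ^ k * 2 ^ exO r k (d + 1)) :=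
                Nat.mul_le_mul_left _ h
            _ = 2 ^ k * 2 ^ (r + exO r k (d + 1)) := by rw [pow_add]; ring
            _ ≤ 2 ^ k * 2 ^ exO r (k + 1) (d + 1) := by
                apply Nat.mul_le_mul_left
                apply Nat.pow_le_pow_right (by norm_num)
                unfold exO
                have : r * (k + 1 - (d + 1)) = r * (k - (d + 1)) + r := by
                  have : k + 1 - (d + 1) = (k - (d + 1)) + 1 := by omega
                  rw [this]; ring
                omega
      calc _ ≤ 2 ^ k * 2 ^ exO r (k + 1) (d + 1) + 2 ^ k * 2 ^ exO r (k + 1) (d + 1) :=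
            add_le_add e1 e2
        _ = 2 ^ (k + 1) * 2 ^ exO r (k + 1) (d + 1) := by ring

lemma exO_step {k : ℕ} {d : ℕ} (hk : r ≤ k) (hd : d + 1 ≤ r) : exO r k d ≤ exO r k (d + 1) := by
  obtain ⟨t, rfl⟩ : ∃ t, k = d + 1 + t := ⟨k - (d + 1), by omega⟩
  unfold exO
  rw [Finset.sum_range_succ]
  have h1 : d + 1 + t - d = t + 1 := by omega
  have h2 : d + 1 + t - (d + 1) = t := by omega
  rw [h1, h2]
  have h3 : r * (t + 1) = r * t + r := by ring
  rw [h3]
  omega

lemma exO_mono {k : ℕ} (hk : r ≤ k) {d : ℕ} (hd : d ≤ r) : exO r k d ≤ exO r k r := by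
  obtain ⟨t, ht⟩ : ∃ t, r = d + t := ⟨r - d, by omega⟩
  have : ∀ t, d + t ≤ r → exO r k d ≤ exO r k (d + t) := by
    intro t
    induction t with
    | zero => intro _; exact le_rfl
    | succ t ih =>
      intro h
      exact (ih (by omega)).trans (exO_step (d := d + t) hk (by omega))
  have h := this t (by omega)
  rwa [← ht] at h

open Classical in
lemma card_OW (c : ZMod 2) {k : ℕ} (hk : r ≤ k) :
    #(univ.filter fun g : Fin k → SV r => OW c g) ≤ (r + 1) * (2 ^ k * 2 ^ exO r k r) := by
  have h1 : ∀ g ∈ univ.filter (fun g : Fin k → SV r => OW c g), dm (sec g) ∈ range (r + 1) := by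
    intro g _
    rw [mem_range]
    have := dm_sec_le g
    omega
  rw [Finset.card_eq_sum_card_fiberwise h1]
  calc _ ≤ ∑ d ∈ range (r + 1), 2 ^ k * 2 ^ exO r k r := by
        apply Finset.sum_le_sum
        intro d hd
        rw [mem_range] at hd
        rw [Finset.filter_filter]
        refine (NO_le c k d (by omega)).trans ?_
        apply Nat.mul_le_mul_left
        exact Nat.pow_le_pow_right (by norm_num) (exO_mono hk (by omega))
    _ = _ := by simp

lemma exO_eq {k : ℕ} (hk : r ≤ k) : (exO r k r : ℝ) = r * k + r ^ 2 / 2 + r / 2 := by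
  unfold exO
  rw [Nat.cast_add, sum_exp r (by omega), Nat.cast_mul, Nat.cast_sub hk]
  ring

/-- The graph given above the diagonal. -/
def GO {n : ℕ} (f : Fin n → SV r) : SimpleGraph (Fin n) where
  Adj x y := (x < y ∧ (f x).1 ⬝ᵥ (f y).2 = 1) ∨ (y < x ∧ (f y).1 ⬝ᵥ (f x).2 = 1)
  symm := ⟨fun _ _ h => h.symm⟩
  loopless := ⟨fun x h => by rcases h with h | h <;> exact lt_irrefl x h.1⟩

lemma GO_lt {n : ℕ} (f : Fin n → SV r) {x y : Fin n} (h : x < y) :
    (GO f).Adj x y ↔ (f x).1 ⬝ᵥ (f y).2 = 1 := by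
  constructor
  · rintro (h' | h')
    · exact h'.2
    · exact absurd h'.1 (not_lt.2 h.le)
  · intro h'
    exact Or.inl ⟨h, h'⟩

lemma family_mono {n k : ℕ} (s : Finset (Fin n)) (hs : #s = k) :
    ∃ i : Fin k → Fin n, StrictMono i ∧ ∀ a, i a ∈ s :=
  ⟨s.orderEmbOfFin hs, (s.orderEmbOfFin hs).strictMono, fun a => s.orderEmbOfFin_mem hs a⟩

lemma noMono_of_OW {n k : ℕ} (f : Fin n → SV r)
    (h : ∀ i : Fin k → Fin n, Function.Injective i → ¬ OW 0 (f ∘ i) ∧ ¬ OW 1 (f ∘ i)) :
    NoMono (GO f) k := by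
  constructor
  · intro s hs
    obtain ⟨i, hi, his⟩ := family_mono s hs.card_eq
    apply (h i hi.injective).2
    intro a b hab
    exact (GO_lt f (hi hab)).1 (hs.isClique (his a) (his b) (hi hab).ne)
  · intro s hs
    obtain ⟨i, hi, his⟩ := family_mono s hs.card_eq
    apply (h i hi.injective).1
    intro a b hab
    have := hs.isClique (his a) (his b) (hi hab).ne
    rw [SimpleGraph.compl_adj] at this
    rcases zmod2 ((f (i a)).1 ⬝ᵥ (f (i b)).2) with h' | h'
    · exact h'
    · exact absurd ((GO_lt f (hi hab)).2 h') this.2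

lemma exists_GO (n k : ℕ) (hk : 1 ≤ k) (hrk : r ≤ k)
    (hn : (n : ℝ) ≤ (2 : ℝ) ^ ((r : ℝ) - r ^ 2 / (2 * k) - 4)) :
    ∃ f : Fin n → SV r, NoMono (GO f) k := by
  classical
  have hk0 : (0 : ℝ) < k := by exact_mod_cast (by omega : 0 < k)
  have hrk' : (r : ℝ) ≤ k := by exact_mod_cast hrk
  have hr0 : (0 : ℝ) ≤ r := by positivity
  have hnk : (n : ℝ) ^ k ≤ (2 : ℝ) ^ ((r : ℝ) * k - r ^ 2 / 2 - 4 * k) := by
    calc (n : ℝ) ^ k ≤ ((2 : ℝ) ^ ((r : ℝ) - r ^ 2 / (2 * k) - 4)) ^ k :=
          pow_le_pow_left₀ (by positivity) hn k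
      _ = (2 : ℝ) ^ (((r : ℝ) - r ^ 2 / (2 * k) - 4) * k) := by
          rw [Real.rpow_mul (by norm_num), Real.rpow_natCast]
      _ = _ := by
          congr 1
          field_simp
  have goal : (n : ℝ) ^ k * (2 * ((r + 1) * (2 ^ k * 2 ^ exO r k r))) < (2 ^ (2 * r)) ^ k := by
    have h1 : ((r : ℝ) + 1) ≤ (2 : ℝ) ^ (r : ℝ) := by
      rw [Real.rpow_natCast]
      exact_mod_cast Nat.lt_two_pow_self
    have h2 : (2 : ℝ) ^ exO r k r = (2 : ℝ) ^ ((r : ℝ) * k + r ^ 2 / 2 + r / 2) := by
      rw [← exO_eq hrk, Real.rpow_natCast]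
    have e3 : ((2 : ℝ) ^ (2 * r)) ^ k = (2 : ℝ) ^ ((2 : ℝ) * r * k) := by
      rw [← pow_mul, ← Real.rpow_natCast]
      push_cast
      rfl
    rw [e3]
    calc (n : ℝ) ^ k * (2 * ((r + 1) * (2 ^ k * 2 ^ exO r k r)))
        ≤ (2 : ℝ) ^ ((r : ℝ) * k - r ^ 2 / 2 - 4 * k) * ((2 : ℝ) ^ (1 : ℝ) * ((2 : ℝ) ^ (r : ℝ) *
          ((2 : ℝ) ^ (k : ℝ) * (2 : ℝ) ^ ((r : ℝ) * k + r ^ 2 / 2 + r / 2)))) := by
          rw [h2, Real.rpow_natCast 2 k, Real.rpow_one]
          gcongr
      _ = (2 : ℝ) ^ ((2 : ℝ) * r * k + (1 - 3 * k + 3 / 2 * r)) := by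
          rw [← Real.rpow_add (by norm_num), ← Real.rpow_add (by norm_num),
            ← Real.rpow_add (by norm_num), ← Real.rpow_add (by norm_num)]
          congr 1
          ring
      _ < (2 : ℝ) ^ ((2 : ℝ) * r * k) := by
          apply Real.rpow_lt_rpow_of_exponent_lt (by norm_num)
          have : (1 : ℝ) ≤ k := by exact_mod_cast hk
          linarith
  have goal' : n ^ k * (2 * ((r + 1) * (2 ^ k * 2 ^ exO r k r))) < (2 ^ (2 * r)) ^ k := by
    exact_mod_cast goal
  obtain ⟨f, hf⟩ := exists_avoid n k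
    ((univ.filter fun g : Fin k → SV r => OW 0 g) ∪ (univ.filter fun g : Fin k → SV r => OW 1 g)) (by
      rw [card_SV]
      refine lt_of_le_of_lt (Nat.mul_le_mul_left _ (Finset.card_union_le _ _)) ?_
      refine lt_of_le_of_lt (Nat.mul_le_mul_left _ ?_) goal'
      rw [two_mul]
      apply add_le_add
      · convert card_OW 0 hrk
      · convert card_OW 1 hrk)
  refine ⟨f, noMono_of_OW f ?_⟩
  intro i hi
  have := hf i hi
  simp only [mem_union, mem_filter, mem_univ, true_and, not_or] at this
  exact this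

end Pool.Agent.H524PR
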