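import Mathlib
import Pool.Agent.Helper524_PR.Ordered

/-!
helper524: the extremal colourings for the symmetric class, and the upper bounds for the other
classes.
-/

set_option autoImplicit false

namespace Pool.Agent.H524PR

open Finset Module

variable {m : ℕ}

/-- A finite set of pairwise orthogonal vectors has at most `2 ^ m` elements. -/
lemma card_iso (s : Finset (SV m)) (h : ∀ u ∈ s, ∀ v ∈ s, B m u v = 0) : #s ≤ 2 ^ m := by
  classical
  let g : Fin #s → SV m := fun i => s.equivFin.symm i
  have hg : dm g ≤ m := by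
    apply dm_iso
    intro a b
    exact h _ (s.equivFin.symm a).2 _ (s.equivFin.symm b).2
  calc #s ≤ #(univ.filter fun v => v ∈ Submodule.span (ZMod 2) (Set.range g)) := by
        apply Finset.card_le_card
        intro v hv
        simp only [mem_filter, mem_univ, true_and]
        apply Submodule.subset_span
        exact ⟨s.equivFin ⟨v, hv⟩, by simp [g]⟩
    _ = 2 ^ dm g := by rw [card_sub]; rfl
    _ ≤ 2 ^ m := Nat.pow_le_pow_right (by norm_num) hg

/-- A finite set of pairwise orthogonal nonzero vectors has at most `2 ^ m - 1` elements. -/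
lemma card_iso_ne (s : Finset (SV m)) (h : ∀ u ∈ s, ∀ v ∈ s, B m u v = 0) (h0 : 0 ∉ s) :
    #s + 1 ≤ 2 ^ m := by
  classical
  rw [← Finset.card_insert_of_notMem h0]
  apply card_iso
  intro u hu v hv
  rw [mem_insert] at hu hv
  rcases hu with rfl | hu
  · simp
  · rcases hv with rfl | hv
    · simp
    · exact h u hu v hv

/-- The vertices of the extremal graph. -/
abbrev XV (m t : ℕ) := {u : SV m // u ≠ 0} × Fin t

lemma card_XV (t : ℕ) : Fintype.card (XV m t) = (2 ^ m - 1) * t * (2 ^ m + 1) := by
  rw [Fintype.card_prod, Fintype.card_fin]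
  have : Fintype.card {u : SV m // u ≠ 0} = 2 ^ (2 * m) - 1 := by
    rw [Fintype.card_subtype_compl, card_SV, Fintype.card_subtype_eq]
  rw [this]
  have h1 : 1 ≤ 2 ^ m := Nat.one_le_two_pow
  obtain ⟨q, hq⟩ : ∃ q, 2 ^ m = q + 1 := ⟨2 ^ m - 1, by omega⟩
  have h2 : 2 ^ (2 * m) = (q + 1) * (q + 1) := by rw [← hq, two_mul, pow_add]
  rw [h2, hq]
  have h3 : (q + 1) * (q + 1) - 1 = q * (q + 2) := by
    have : (q + 1) * (q + 1) = q * (q + 2) + 1 := by ring
    omega
  rw [h3]
  simp
  ring

lemma noMono_equiv {ι : Type*} {n k : ℕ} (e : Fin n ≃ ι) (f : ι → SV m)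
    (h : NoMono (GV f) k) : NoMono (GV (f ∘ e)) k := by
  constructor
  · have : GV (f ∘ e) ↪g GV f := ⟨e.toEmbedding, by intro a b; rfl⟩
    exact h.1.comap ⟨this.toCopy⟩
  · have : (GV (f ∘ e))ᶜ ↪g (GV f)ᶜ := ⟨e.toEmbedding, by
      intro a b
      rw [SimpleGraph.compl_adj, SimpleGraph.compl_adj]
      simp [GV]⟩
    exact h.2.comap ⟨this.toCopy⟩

lemma extremal (t : ℕ) (hk : 2 * m < (2 ^ m - 1) * t) :
    NoMono (GV (fun x : XV m t => (x.1 : SV m))) ((2 ^ m - 1) * t + 1) := by
  classical
  constructor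
  · intro s hs
    let g : Fin #s → SV m := fun i => ((s.equivFin.symm i : XV m t)).1
    have hg : PW 1 g := by
      intro a b hab
      exact hs.isClique (s.equivFin.symm a).2 (s.equivFin.symm b).2
        (fun e => hab (s.equivFin.symm.injective (Subtype.ext e)))
    have h1 := clique_le hg
    have h2 := hs.card_eq
    omega
  · intro s hs
    have hp : ∀ x ∈ s, ∀ y ∈ s, B m (x.1 : SV m) (y.1 : SV m) = 0 := by
      intro x hx y hy
      by_cases hxy : x = y
      · rw [hxy]; exact B_self _
      · have := hs.isClique hx hy hxy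
        rw [SimpleGraph.compl_adj] at this
        exact (GV_not_adj _ _ _).1 this.2
    have h1 : #s ≤ t * #(s.image fun x => (x.1 : SV m)) := by
      apply Finset.card_le_mul_card_image
      intro u _
      calc #(s.filter fun x => (x.1 : SV m) = u) ≤ #(univ : Finset (Fin t)) := by
            apply Finset.card_le_card_of_injOn (fun x => x.2)
            · intro x _; simp
            · intro x hx y hy hxy
              simp only [coe_filter, Set.mem_ofPred_eq] at hx hy
              apply Prod.ext
              · apply Subtype.ext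
                rw [hx.2, hy.2]
              · exact hxy
        _ = t := by simp
    have h2 : #(s.image fun x => (x.1 : SV m)) + 1 ≤ 2 ^ m := by
      apply card_iso_ne
      · intro u hu v hv
        rw [mem_image] at hu hv
        obtain ⟨x, hx, rfl⟩ := hu
        obtain ⟨y, hy, rfl⟩ := hv
        exact hp x hx y hy
      · intro h0
        rw [mem_image] at h0
        obtain ⟨x, -, hx⟩ := h0
        exact x.1.2 hx
    have h3 := hs.card_eq
    have h4 : t * #(s.image fun x => (x.1 : SV m)) ≤ (2 ^ m - 1) * t := by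
      rw [mul_comm]
      exact Nat.mul_le_mul_right _ (by omega)
    omega

/-- The extremal colouring on `Fin n`. -/
lemma exists_extremal (t : ℕ) (hk : 2 * m < (2 ^ m - 1) * t) :
    ∃ f : Fin ((2 ^ m - 1) * t * (2 ^ m + 1)) → SV m, NoMono (GV f) ((2 ^ m - 1) * t + 1) := by
  have e : Fin ((2 ^ m - 1) * t * (2 ^ m + 1)) ≃ XV m t :=
    (finCongr (card_XV t).symm).trans (Fintype.equivFin _).symm
  exact ⟨_, noMono_equiv e _ (extremal t hk)⟩

/-! ### Upper bounds for the other classes -/

/-- `M` agrees with the adjacency matrix of `G` off the diagonal. -/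
def Fits {ι : Type*} (M : Matrix ι ι (ZMod 2)) (G : SimpleGraph ι) : Prop :=
  ∀ x y, x ≠ y → (M x y = 1 ↔ G.Adj x y)

lemma rank_add_le' {ι κ : Type*} [Fintype κ] [Fintype ι] (M N : Matrix ι κ (ZMod 2)) :
    (M + N).rank ≤ M.rank + N.rank := by
  classical
  rw [Matrix.rank_eq_finrank_span_row, Matrix.rank_eq_finrank_span_row,
    Matrix.rank_eq_finrank_span_row]
  refine le_trans (Submodule.finrank_mono ?_) (Submodule.finrank_add_le_finrank_add_finrank _ _)
  rw [Submodule.span_le]
  rintro _ ⟨x, rfl⟩
  have : (M + N).row x = M.row x + N.row x := rfl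
  rw [this]
  exact Submodule.add_mem_sup (Submodule.subset_span ⟨x, rfl⟩) (Submodule.subset_span ⟨x, rfl⟩)

lemma rank_ones {ι : Type*} [Fintype ι] :
    (Matrix.of fun _ _ : ι => (1 : ZMod 2)).rank ≤ 1 := by
  have : (Matrix.of fun _ _ : ι => (1 : ZMod 2)) = Matrix.vecMulVec (fun _ => 1) (fun _ => 1) := by
    ext x y
    simp [Matrix.vecMulVec]
  rw [this]
  exact Matrix.rank_vecMulVec_le _ _

lemma induce_free {n k : ℕ} {G : SimpleGraph (Fin n)} (p : Fin n → Prop)
    (h : G.CliqueFree k) : (G.induce {x | p x}).CliqueFree k :=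
  h.comap ⟨(SimpleGraph.Embedding.induce _).toCopy⟩

lemma compl_induce {n : ℕ} (G : SimpleGraph (Fin n)) (s : Set (Fin n)) :
    (G.induce s)ᶜ = Gᶜ.induce s := by
  ext x y
  simp [SimpleGraph.compl_adj, Subtype.ext_iff]

/-- **Upper bound for the minimum rank.** -/
lemma upper_fits {n r k : ℕ} (G : SimpleGraph (Fin n)) (M : Matrix (Fin n) (Fin n) (ZMod 2))
    (hM : Fits M G) (hr : M.rank ≤ r) (h : NoMono G k) :
    n ≤ (k - 1) * (2 ^ (r / 2) + 2 ^ ((r + 1) / 2) + 2) := by
  classical
  have hsplit : n = Fintype.card {x : Fin n // M x x = 0} + Fintype.card {x : Fin n // M x x = 1} := by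
    rw [Fintype.card_subtype, Fintype.card_subtype]
    have h1 := Finset.card_filter_add_card_filter_not (s := (univ : Finset (Fin n)))
      (fun x => M x x = 0)
    rw [Finset.card_univ, Fintype.card_fin] at h1
    have h2 : (univ.filter fun x : Fin n => ¬ M x x = 0) = univ.filter fun x => M x x = 1 := by
      ext x
      simp only [mem_filter, mem_univ, true_and]
      rcases zmod2 (M x x) with h | h <;> rw [h] <;> simp
    rw [h2] at h1
    exact h1.symm
  have e0 : Fintype.card {x : Fin n // M x x = 0} ≤ (k - 1) * (2 ^ (r / 2) + 1) := by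
    let G0 : SimpleGraph {x : Fin n // M x x = 0} := G.induce {x | M x x = 0}
    have hadj : adj2 G0 = M.submatrix (fun x => x.1) (fun x => x.1) := by
      ext x y
      rw [Matrix.submatrix_apply]
      by_cases hxy : x = y
      · rw [hxy, y.2, adj2_eq_zero]
        exact G0.loopless.irrefl y
      · have h1 := hM x.1 y.1 (fun e => hxy (Subtype.ext e))
        rcases zmod2 (M x.1 y.1) with h2 | h2
        · rw [h2, adj2_eq_zero]
          intro h3
          rw [h1.2 h3] at h2
          exact one_ne_zero h2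
        · rw [h2, adj2_eq_one]
          exact h1.1 h2
    apply upper_zero G0 r k
    · rw [hadj]
      exact (Matrix.rank_submatrix_le _ _ _).trans hr
    · show (G.induce {x | M x x = 0})ᶜ.CliqueFree k
      rw [compl_induce]
      exact induce_free (G := Gᶜ) (fun x => M x x = 0) h.2
  have e1 : Fintype.card {x : Fin n // M x x = 1} ≤ (k - 1) * (2 ^ ((r + 1) / 2) + 1) := by
    let G1 : SimpleGraph {x : Fin n // M x x = 1} := Gᶜ.induce {x | M x x = 1}
    have hadj : adj2 G1 = (M + Matrix.of fun _ _ => 1).submatrix (fun x => x.1) (fun x => x.1) := by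
      ext x y
      rw [Matrix.submatrix_apply, Matrix.add_apply, Matrix.of_apply]
      by_cases hxy : x = y
      · rw [hxy, y.2]
        have h0 : (1 : ZMod 2) + 1 = 0 := by decide
        rw [h0, adj2_eq_zero]
        exact G1.loopless.irrefl y
      · have hne : x.1 ≠ y.1 := fun e => hxy (Subtype.ext e)
        have h1 := hM x.1 y.1 hne
        rcases zmod2 (M x.1 y.1) with h2 | h2
        · rw [h2, zero_add, adj2_eq_one]
          show Gᶜ.Adj x.1 y.1
          rw [SimpleGraph.compl_adj]
          refine ⟨hne, ?_⟩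
          intro h3
          rw [h1.2 h3] at h2
          exact one_ne_zero h2
        · have h0 : (1 : ZMod 2) + 1 = 0 := by decide
          rw [h2, h0, adj2_eq_zero]
          intro h3
          have h4 : Gᶜ.Adj x.1 y.1 := h3
          rw [SimpleGraph.compl_adj] at h4
          exact h4.2 (h1.1 h2)
    apply upper_zero G1 (r + 1) k
    · rw [hadj]
      refine (Matrix.rank_submatrix_le _ _ _).trans ((rank_add_le' _ _).trans ?_)
      exact add_le_add hr rank_ones
    · show (Gᶜ.induce {x | M x x = 1})ᶜ.CliqueFree k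
      rw [compl_induce, compl_compl]
      exact induce_free (fun x => M x x = 1) h.1
  calc n = _ := hsplit
    _ ≤ (k - 1) * (2 ^ (r / 2) + 1) + (k - 1) * (2 ^ ((r + 1) / 2) + 1) := add_le_add e0 e1
    _ = _ := by ring

/-- `M` agrees with the adjacency matrix of `G` above the diagonal. -/
def FitsAbove {n : ℕ} (M : Matrix (Fin n) (Fin n) (ZMod 2)) (G : SimpleGraph (Fin n)) : Prop :=
  ∀ x y, x < y → (M x y = 1 ↔ G.Adj x y)

/-- The graph `GO f` has ordered rank at most `r`. -/
lemma fitsAbove_GO {n r : ℕ} (f : Fin n → SV r) :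
    ∃ M : Matrix (Fin n) (Fin n) (ZMod 2), FitsAbove M (GO f) ∧ M.rank ≤ r := by
  let P : Matrix (Fin n) (Fin r) (ZMod 2) := fun x => (f x).1
  let Q : Matrix (Fin r) (Fin n) (ZMod 2) := fun i y => (f y).2 i
  refine ⟨P * Q, ?_, ?_⟩
  · intro x y hxy
    rw [GO_lt f hxy]
    rfl
  · refine (Matrix.rank_mul_le_left P Q).trans ((Matrix.rank_le_card_width P).trans ?_)
    simp

/-- A matrix of rank at most `r` over the field with two elements has at most `2 ^ r` different
rows. -/
lemma card_rows {n r : ℕ} (M : Matrix (Fin n) (Fin n) (ZMod 2)) (hr : M.rank ≤ r) :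
    #(univ.image fun x => M.row x) ≤ 2 ^ r := by
  classical
  have h1 : finrank (ZMod 2) (Submodule.span (ZMod 2) (Set.range M.row)) ≤ r := by
    rw [← Matrix.rank_eq_finrank_span_row]; exact hr
  have h2 : #(univ.filter fun v : Fin n → ZMod 2 =>
      v ∈ Submodule.span (ZMod 2) (Set.range M.row)) =
      2 ^ finrank (ZMod 2) (Submodule.span (ZMod 2) (Set.range M.row)) := by
    have h := Module.card_eq_pow_finrank (K := ZMod 2)
      (V := Submodule.span (ZMod 2) (Set.range M.row))
    rw [ZMod.card] at h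
    rw [← h, Fintype.card_subtype]
  calc _ ≤ #(univ.filter fun v : Fin n → ZMod 2 =>
      v ∈ Submodule.span (ZMod 2) (Set.range M.row)) := by
        apply Finset.card_le_card
        intro v hv
        rw [mem_image] at hv
        obtain ⟨x, -, rfl⟩ := hv
        simp only [mem_filter, mem_univ, true_and]
        exact Submodule.subset_span ⟨x, rfl⟩
    _ = _ := h2
    _ ≤ 2 ^ r := Nat.pow_le_pow_right (by norm_num) h1

/-- **Upper bound for the ordered rank.** -/
lemma upper_above {n r k : ℕ} (G : SimpleGraph (Fin n)) (M : Matrix (Fin n) (Fin n) (ZMod 2))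
    (hM : FitsAbove M G) (hr : M.rank ≤ r) (h : NoMono G k) : n ≤ 2 * (k - 1) * 2 ^ r := by
  classical
  by_contra hcon
  push Not at hcon
  have h1 : #(univ.image fun x => M.row x) * (2 * (k - 1)) < #(univ : Finset (Fin n)) := by
    rw [Finset.card_univ, Fintype.card_fin]
    calc _ ≤ 2 ^ r * (2 * (k - 1)) := Nat.mul_le_mul_right _ (card_rows M hr)
      _ = 2 * (k - 1) * 2 ^ r := by ring
      _ < n := hcon
  obtain ⟨ρ, -, hρ⟩ := Finset.exists_lt_card_fiber_of_mul_lt_card_of_maps_to
    (s := (univ : Finset (Fin n))) (t := univ.image fun x => M.row x) (f := fun x => M.row x)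
    (fun x _ => mem_image_of_mem _ (mem_univ x)) h1
  set s := (univ : Finset (Fin n)).filter fun x => M.row x = ρ with hs
  have h2 := Finset.card_filter_add_card_filter_not (s := s) (fun x => ρ x = 1)
  have key : ∀ x ∈ s, ∀ y, x < y → (ρ y = 1 ↔ G.Adj x y) := by
    intro x hx y hxy
    rw [hs, mem_filter] at hx
    rw [← hM x y hxy, ← hx.2]
    rfl
  rcases Nat.lt_or_ge (k - 1) #(s.filter fun x => ρ x = 1) with h3 | h3
  · obtain ⟨t, hts, htk⟩ := Finset.exists_subset_card_eq (n := k) (by omega :
      k ≤ #(s.filter fun x => ρ x = 1))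
    apply h.1 t
    refine ⟨?_, htk⟩
    intro x hx y hy hxy
    have hx' := mem_filter.1 (hts hx)
    have hy' := mem_filter.1 (hts hy)
    rcases lt_or_gt_of_ne hxy with hlt | hlt
    · exact (key x hx'.1 y hlt).1 hy'.2
    · exact ((key y hy'.1 x hlt).1 hx'.2).symm
  · have h4 : k ≤ #(s.filter fun x => ¬ ρ x = 1) := by omega
    obtain ⟨t, hts, htk⟩ := Finset.exists_subset_card_eq h4
    apply h.2 t
    refine ⟨?_, htk⟩
    intro x hx y hy hxy
    have hx' := mem_filter.1 (hts hx)
    have hy' := mem_filter.1 (hts hy)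
    rw [SimpleGraph.compl_adj]
    refine ⟨hxy, ?_⟩
    rcases lt_or_gt_of_ne hxy with hlt | hlt
    · intro h5; exact hy'.2 ((key x hx'.1 y hlt).2 h5)
    · intro h5; exact hx'.2 ((key y hy'.1 x hlt).2 h5.symm)

end Pool.Agent.H524PR
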