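import Mathlib
import Pool.Agent.Helper524_PR.Exist

/-!
helper524: the union bound over sets of `k` vertices, which gains a factor `k`.
-/

set_option autoImplicit false

namespace Pool.Agent.H524PR

open Finset Module

open Classical in
lemma exists_avoid2 {V : Type*} [Fintype V] [Nonempty V] (n k : ℕ) (T : Finset (Fin k → V))
    (h : n.choose k * #T < Fintype.card V ^ k) :
    ∃ f : Fin n → V, ∀ (s : Finset (Fin n)) (hs : #s = k), f ∘ (s.orderEmbOfFin hs) ∉ T := by
  by_contra hcon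
  push Not at hcon
  have hkn : k ≤ n := by
    obtain ⟨s, hs, -⟩ := hcon (fun _ => Classical.arbitrary V)
    have := Finset.card_le_univ s
    rwa [hs, Fintype.card_fin] at this
  have h1 : (univ : Finset (Fin n → V)) ⊆
      (Finset.powersetCard k (univ : Finset (Fin n))).biUnion
        (fun s => univ.filter fun f : Fin n → V => ∃ hs : #s = k, f ∘ (s.orderEmbOfFin hs) ∈ T) := by
    intro f _
    obtain ⟨s, hs, hf⟩ := hcon f
    simp only [mem_biUnion, mem_filter, mem_univ, true_and, mem_powersetCard]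
    exact ⟨s, ⟨subset_univ _, hs⟩, hs, hf⟩
  have h2 := (Finset.card_le_card h1).trans (Finset.card_biUnion_le)
  have h3 : ∑ s ∈ Finset.powersetCard k (univ : Finset (Fin n)),
      #(univ.filter fun f : Fin n → V => ∃ hs : #s = k, f ∘ (s.orderEmbOfFin hs) ∈ T) ≤
        n.choose k * (#T * Fintype.card V ^ (n - k)) := by
    refine (Finset.sum_le_card_nsmul _ _ (#T * Fintype.card V ^ (n - k)) ?_).trans ?_
    · intro s hs
      rw [mem_powersetCard] at hs
      refine le_trans (Finset.card_le_card ?_)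
        (card_comp_le (s.orderEmbOfFin hs.2) (s.orderEmbOfFin hs.2).injective T)
      intro f hf
      simp only [mem_filter, mem_univ, true_and] at hf ⊢
      obtain ⟨_, hf⟩ := hf
      exact hf
    · rw [Finset.card_powersetCard, Finset.card_univ, Fintype.card_fin, smul_eq_mul]
  rw [Finset.card_univ, Fintype.card_fun, Fintype.card_fin] at h2
  have h4 : Fintype.card V ^ n = Fintype.card V ^ k * Fintype.card V ^ (n - k) := by
    rw [← pow_add]; congr 1; omega
  have h5 : 0 < Fintype.card V ^ (n - k) := by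
    have : 0 < Fintype.card V := Fintype.card_pos
    positivity
  have h6 := Nat.mul_lt_mul_of_pos_right h h5
  rw [h4] at h2
  have h7 := h2.trans h3
  rw [← mul_assoc] at h7
  omega

/-- The number of `k`-element subsets. -/
lemma choose_le_real {n k : ℕ} {x : ℝ} (hk : 1 ≤ k) (hn : (n : ℝ) ≤ k * (2 : ℝ) ^ (x - 2)) :
    ((n.choose k : ℕ) : ℝ) ≤ (2 : ℝ) ^ (x * k) := by
  have hk0 : (0 : ℝ) < k := by exact_mod_cast hk
  have h1 : ((n.choose k : ℕ) : ℝ) * (k.factorial : ℝ) ≤ (n : ℝ) ^ k := by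
    have : n.choose k * k.factorial ≤ n ^ k := by
      rw [mul_comm, ← Nat.descFactorial_eq_factorial_mul_choose]
      exact Nat.descFactorial_le_pow n k
    exact_mod_cast this
  have h2 : (k : ℝ) ^ k / k.factorial ≤ Real.exp k := Real.pow_div_factorial_le_exp _ hk0.le k
  have h3 : Real.exp k ≤ (4 : ℝ) ^ k := by
    have e1 : Real.exp 1 ≤ 4 := by
      have := Real.exp_one_lt_d9
      linarith
    calc Real.exp k = Real.exp 1 ^ k := by rw [← Real.exp_nat_mul, mul_one]
      _ ≤ 4 ^ k := pow_le_pow_left₀ (Real.exp_pos _).le e1 k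
  have h4 : (k : ℝ) ^ k ≤ 4 ^ k * k.factorial := by
    have hf : (0 : ℝ) < k.factorial := by exact_mod_cast Nat.factorial_pos k
    rw [div_le_iff₀ hf] at h2
    nlinarith
  have h5 : (n : ℝ) ^ k ≤ (k : ℝ) ^ k * ((2 : ℝ) ^ (x * k) / 4 ^ k) := by
    calc (n : ℝ) ^ k ≤ (k * (2 : ℝ) ^ (x - 2)) ^ k := pow_le_pow_left₀ (by positivity) hn k
      _ = (k : ℝ) ^ k * ((2 : ℝ) ^ (x - 2)) ^ k := by rw [mul_pow]
      _ = _ := by
        congr 1
        rw [← Real.rpow_natCast, ← Real.rpow_mul (by norm_num), sub_mul, Real.rpow_sub (by norm_num),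
          Real.rpow_mul (by norm_num) 2 (k : ℝ), Real.rpow_natCast]
        norm_num
  have hf : (0 : ℝ) < k.factorial := by exact_mod_cast Nat.factorial_pos k
  have h6 : ((n.choose k : ℕ) : ℝ) * (k.factorial : ℝ) ≤ (2 : ℝ) ^ (x * k) * k.factorial := by
    refine h1.trans (h5.trans ?_)
    have h7 : 0 ≤ (2 : ℝ) ^ (x * k) / 4 ^ k := by positivity
    calc (k : ℝ) ^ k * ((2 : ℝ) ^ (x * k) / 4 ^ k) ≤
        (4 ^ k * k.factorial) * ((2 : ℝ) ^ (x * k) / 4 ^ k) := mul_le_mul_of_nonneg_right h4 h7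
      _ = _ := by field_simp
  exact le_of_mul_le_mul_right h6 hf

variable {m : ℕ}

lemma noMono_of2 {n k : ℕ} (f : Fin n → SV m)
    (h : ∀ (s : Finset (Fin n)) (hs : #s = k), ¬ PW 0 (f ∘ (s.orderEmbOfFin hs)) ∧
      ¬ PW 1 (f ∘ (s.orderEmbOfFin hs))) :
    NoMono (GV f) k := by
  constructor
  · intro s hs
    apply (h s hs.card_eq).2
    intro a b hab
    exact hs.isClique (s.orderEmbOfFin_mem _ a) (s.orderEmbOfFin_mem _ b)
      (fun e => hab ((s.orderEmbOfFin hs.card_eq).injective e))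
  · intro s hs
    apply (h s hs.card_eq).1
    intro a b hab
    have := hs.isClique (s.orderEmbOfFin_mem hs.card_eq a) (s.orderEmbOfFin_mem hs.card_eq b)
      (fun e => hab ((s.orderEmbOfFin hs.card_eq).injective e))
    rw [SimpleGraph.compl_adj] at this
    exact (GV_not_adj f _ _).1 this.2

/-- Existence, in the form of an inequality between natural numbers. -/
lemma exists_GV2 (n k : ℕ) (hmk : m ≤ k)
    (h : n.choose k * ((m + 1) * (2 ^ k * 2 ^ ex m k m)) +
      n.choose k * (if k ≤ 2 * m + 1 then 2 ^ (∑ j ∈ range k, (2 * m - (j - 1))) else 0) <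
        (2 ^ (2 * m)) ^ k) :
    ∃ f : Fin n → SV m, NoMono (GV f) k := by
  classical
  obtain ⟨f, hf⟩ := exists_avoid2 n k
    ((univ.filter fun g : Fin k → SV m => PW 0 g) ∪ (univ.filter fun g : Fin k → SV m => PW 1 g)) (by
      rw [card_SV]
      refine lt_of_le_of_lt (Nat.mul_le_mul_left _ (Finset.card_union_le _ _)) ?_
      rw [mul_add]
      refine lt_of_le_of_lt (add_le_add (Nat.mul_le_mul_left _ ?_)
        (Nat.mul_le_mul_left _ ?_)) h
      · convert card_PW0 hmk
      · split_ifs with hk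
        · convert card_PW1 k
        · rw [Nat.le_zero, Finset.card_eq_zero, Finset.filter_eq_empty_iff]
          intro g _ hg
          exact hk (clique_le hg))
  refine ⟨f, noMono_of2 f ?_⟩
  intro s hs
  have := hf s hs
  simp only [mem_union, mem_filter, mem_univ, true_and, not_or] at this
  exact this

/-- Existence. -/
lemma exists_GV2' (n k : ℕ) (hk : 2 ≤ k) (hmk : m ≤ k)
    (hn : (n : ℝ) ≤ k * (2 : ℝ) ^ ((m : ℝ) - m ^ 2 / (2 * k) - 5)) :
    ∃ f : Fin n → SV m, NoMono (GV f) k := by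
  have hk0 : (0 : ℝ) < k := by exact_mod_cast (by omega : 0 < k)
  have hmk' : (m : ℝ) ≤ k := by exact_mod_cast hmk
  have hm0 : (0 : ℝ) ≤ m := by positivity
  have hnk : ((n.choose k : ℕ) : ℝ) ≤ (2 : ℝ) ^ ((m : ℝ) * k - m ^ 2 / 2 - 3 * k) := by
    calc ((n.choose k : ℕ) : ℝ) ≤ (2 : ℝ) ^ (((m : ℝ) - m ^ 2 / (2 * k) - 3) * k) := by
          apply choose_le_real (by omega)
          refine hn.trans (le_of_eq ?_)
          congr 2
          ring
      _ = _ := by
          congr 1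
          field_simp
  apply exists_GV2 n k hmk
  have goal : ((n.choose k : ℕ) : ℝ) * ((m + 1) * (2 ^ k * 2 ^ ex m k m)) +
      ((n.choose k : ℕ) : ℝ) * (if k ≤ 2 * m + 1 then 2 ^ (∑ j ∈ range k, (2 * m - (j - 1))) else 0) <
        (2 ^ (2 * m)) ^ k := by
    have e1 : ((n.choose k : ℕ) : ℝ) * ((m + 1) * (2 ^ k * 2 ^ ex m k m)) ≤
        (2 : ℝ) ^ ((2 : ℝ) * m * k) * (1 / 2) := by
      have h1 : ((m : ℝ) + 1) ≤ (2 : ℝ) ^ (m : ℝ) := by
        rw [Real.rpow_natCast]
        exact_mod_cast Nat.lt_two_pow_self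
      have h2 : (2 : ℝ) ^ ex m k m = (2 : ℝ) ^ ((m : ℝ) * k + m ^ 2 / 2 + m / 2) := by
        rw [← ex_eq hmk, Real.rpow_natCast]
      calc ((n.choose k : ℕ) : ℝ) * ((m + 1) * (2 ^ k * 2 ^ ex m k m))
          ≤ (2 : ℝ) ^ ((m : ℝ) * k - m ^ 2 / 2 - 3 * k) * ((2 : ℝ) ^ (m : ℝ) *
            ((2 : ℝ) ^ (k : ℝ) * (2 : ℝ) ^ ((m : ℝ) * k + m ^ 2 / 2 + m / 2))) := by
            rw [h2, Real.rpow_natCast 2 k]
            gcongr
        _ = (2 : ℝ) ^ ((2 : ℝ) * m * k + (- 2 * k + 3 / 2 * m)) := by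
            rw [← Real.rpow_add (by norm_num), ← Real.rpow_add (by norm_num),
              ← Real.rpow_add (by norm_num)]
            congr 1
            ring
        _ = (2 : ℝ) ^ ((2 : ℝ) * m * k) * (2 : ℝ) ^ (- 2 * (k : ℝ) + 3 / 2 * m) := by
            rw [Real.rpow_add (by norm_num)]
        _ ≤ (2 : ℝ) ^ ((2 : ℝ) * m * k) * (1 / 2) := by
            apply mul_le_mul_of_nonneg_left _ (by positivity)
            have : (2 : ℝ) ^ (- 2 * (k : ℝ) + 3 / 2 * m) ≤ (2 : ℝ) ^ (-1 : ℝ) := by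
              apply Real.rpow_le_rpow_of_exponent_le (by norm_num)
              have : (2 : ℝ) ≤ k := by exact_mod_cast hk
              linarith
            refine this.trans (le_of_eq ?_)
            rw [Real.rpow_neg_one]
            norm_num
    have e2 : ((n.choose k : ℕ) : ℝ) *
        (if k ≤ 2 * m + 1 then 2 ^ (∑ j ∈ range k, (2 * m - (j - 1))) else 0) <
        (2 : ℝ) ^ ((2 : ℝ) * m * k) * (1 / 2) := by
      split_ifs with h
      · obtain ⟨l, rfl⟩ : ∃ l, k = l + 1 := ⟨k - 1, by omega⟩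
        have h2 : (2 : ℝ) ^ (∑ j ∈ range (l + 1), (2 * m - (j - 1))) =
            (2 : ℝ) ^ (2 * (m : ℝ) * (l + 1) - l * (l - 1) / 2) := by
          rw [← sum_exp1 l (by omega), Real.rpow_natCast]
        calc ((n.choose (l + 1) : ℕ) : ℝ) * 2 ^ (∑ j ∈ range (l + 1), (2 * m - (j - 1)))
            ≤ (2 : ℝ) ^ ((m : ℝ) * ((l + 1 : ℕ) : ℝ) - m ^ 2 / 2 - 3 * ((l + 1 : ℕ) : ℝ)) *
              (2 : ℝ) ^ (2 * (m : ℝ) * (l + 1) - l * (l - 1) / 2) := by
              rw [h2]
              gcongr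
          _ = (2 : ℝ) ^ ((2 : ℝ) * m * ((l + 1 : ℕ) : ℝ) +
              ((m : ℝ) * (l + 1) - m ^ 2 / 2 - 3 * (l + 1) - l * (l - 1) / 2)) := by
              rw [← Real.rpow_add (by norm_num)]
              congr 1
              push_cast
              ring
          _ = (2 : ℝ) ^ ((2 : ℝ) * m * ((l + 1 : ℕ) : ℝ)) *
              (2 : ℝ) ^ ((m : ℝ) * (l + 1) - m ^ 2 / 2 - 3 * (l + 1) - l * (l - 1) / 2) := by
              rw [Real.rpow_add (by norm_num)]
          _ < (2 : ℝ) ^ ((2 : ℝ) * m * ((l + 1 : ℕ) : ℝ)) * (1 / 2) := by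
              apply mul_lt_mul_of_pos_left _ (by positivity)
              have : (2 : ℝ) ^ ((m : ℝ) * (l + 1) - m ^ 2 / 2 - 3 * (l + 1) - l * (l - 1) / 2) <
                  (2 : ℝ) ^ (-1 : ℝ) := by
                apply Real.rpow_lt_rpow_of_exponent_lt (by norm_num)
                have hl : (1 : ℝ) ≤ l := by exact_mod_cast (by omega : 1 ≤ l)
                nlinarith [sq_nonneg ((m : ℝ) - (l + 1))]
              refine this.trans_le (le_of_eq ?_)
              rw [Real.rpow_neg_one]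
              norm_num
      · rw [mul_zero]; positivity
    have e3 : ((2 : ℝ) ^ (2 * m)) ^ k = (2 : ℝ) ^ ((2 : ℝ) * m * k) := by
      rw [← pow_mul, ← Real.rpow_natCast]
      push_cast
      rfl
    rw [e3]
    linarith
  have : (((n.choose k * ((m + 1) * (2 ^ k * 2 ^ ex m k m)) +
      n.choose k * (if k ≤ 2 * m + 1 then 2 ^ (∑ j ∈ range k, (2 * m - (j - 1))) else 0) : ℕ)) : ℝ) <
        (((2 ^ (2 * m)) ^ k : ℕ) : ℝ) := by
    push_cast
    exact goal
  exact_mod_cast this

end Pool.Agent.H524PR
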