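import Pool.Agent.Helper524_PR.OrdField
import Pool.Agent.Helper524_PR.Exact

/-!
helper524: existence of colourings of small ordered rank over a finite field, and the upper bound.
-/

set_option autoImplicit false

namespace Pool.Agent.H524PR.OF

open Finset Module

section ex

variable {F : Type} [Field F] [Fintype F] {r : ℕ}

/-- The graph given by pairs of vectors: `x < y` are adjacent if the product of the first vector of
`x` and the second vector of `y` is not `0`. -/
def GF {n : ℕ} (f : Fin n → PV F r) : SimpleGraph (Fin n) where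
  Adj x y := (x < y ∧ (f x).1 ⬝ᵥ (f y).2 ≠ 0) ∨ (y < x ∧ (f y).1 ⬝ᵥ (f x).2 ≠ 0)
  symm := ⟨fun x y h => h.symm⟩
  loopless := ⟨fun x h => by
    rcases h with h | h <;> exact absurd h.1 (lt_irrefl _)⟩

omit [Fintype F] in
lemma GF_lt {n : ℕ} (f : Fin n → PV F r) {x y : Fin n} (h : x < y) :
    (GF f).Adj x y ↔ (f x).1 ⬝ᵥ (f y).2 ≠ 0 := by
  constructor
  · rintro (h1 | h1)
    · exact h1.2
    · exact absurd h1.1 (not_lt.2 h.le)
  · intro h1
    exact Or.inl ⟨h, h1⟩

open Classical in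
/-- All families with nonzero products. -/
noncomputable def allNon (F : Type) [Field F] [Fintype F] (r k : ℕ) : Finset (Fin k → PV F r) :=
  univ.filter fun g => ∀ a b, a < b → (g a).1 ⬝ᵥ (g b).2 ≠ 0

lemma card_PV : Fintype.card (PV F r) = Fintype.card F ^ (2 * r) := by
  rw [Fintype.card_prod, card_V, ← pow_add]
  congr 1
  omega

lemma card_allNon (hr : 2 ≤ r) (j : ℕ) : #(allNon F r (j + 1)) ≤
    Fintype.card F ^ (2 * r) * ((Fintype.card F ^ r) ^ (2 * Fintype.card F ^ 2 * r) *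
      (5 * Fintype.card F ^ (r + 2)) ^ j) := by
  classical
  set q := Fintype.card F with hq
  have hq2 : 2 ≤ q := Fintype.one_lt_card
  set U : Finset (Fin r → F) := univ.erase 0 with hU
  have hsub : allNon F r (j + 1) ⊆ (univ : Finset (PV F r)).biUnion
      (fun p => (nonSet U j).image (fun g => (Fin.cons p g : Fin (j + 1) → PV F r))) := by
    intro g hg
    simp only [allNon, mem_filter, mem_univ, true_and] at hg
    rw [mem_biUnion]
    refine ⟨g 0, mem_univ _, ?_⟩
    rw [mem_image]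
    refine ⟨Fin.tail g, ?_, Fin.cons_self_tail g⟩
    simp only [nonSet, mem_filter, mem_univ, true_and]
    refine ⟨fun i => ?_, fun a b hab => hg _ _ (Fin.succ_lt_succ_iff.2 hab)⟩
    rw [hU, mem_erase]
    refine ⟨?_, mem_univ _⟩
    intro h0
    apply hg 0 i.succ (Fin.succ_pos i)
    have : (g i.succ).2 = 0 := h0
    rw [this, dotProduct_zero]
  have h1 : #(nonSet U j) ≤ (q ^ r) ^ (2 * q ^ 2 * r) * (5 * q ^ (r + 2)) ^ j := by
    refine (card_nonSet hr j U (by simp [hU])).trans ?_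
    refine Nat.mul_le_mul_right _ (Nat.pow_le_pow_left ?_ _)
    refine max_le ?_ (Nat.one_le_pow _ _ (by omega))
    rw [hq, ← card_V (F := F)]
    exact card_le_univ U
  refine (card_le_card hsub).trans ?_
  refine (card_biUnion_le_card_mul _ _ _ (fun p _ => (card_image_le).trans h1)).trans ?_
  rw [card_univ, card_PV]

lemma card_bound (hr : 2 ≤ r) {k : ℕ} (hk : 1 ≤ k) :
    #(zeroSet (⊥ : Submodule F (Fin r → F)) k) + #(allNon F r k) ≤
      Fintype.card F ^ ((r + 5) * k + 3 * Fintype.card F ^ 2 * r ^ 2 + 1) := by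
  set q := Fintype.card F with hq
  have hq2 : 2 ≤ q := Fintype.one_lt_card
  obtain ⟨j, rfl⟩ : ∃ j, k = j + 1 := ⟨k - 1, by omega⟩
  have h1 := card_zeroSet (F := F) (j + 1) (⊥ : Submodule F (Fin r → F))
  rw [finrank_bot, Nat.sub_zero, ← hq] at h1
  have h2 := card_allNon (F := F) hr j
  rw [← hq] at h2
  set N := (r + 5) * (j + 1) + 3 * q ^ 2 * r ^ 2 with hN
  have e1 : (2 * q ^ r) ^ (j + 1) * q ^ (r * r) ≤ q ^ N := by
    calc (2 * q ^ r) ^ (j + 1) * q ^ (r * r) ≤ (q * q ^ r) ^ (j + 1) * q ^ (r * r) :=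
          Nat.mul_le_mul_right _ (Nat.pow_le_pow_left (Nat.mul_le_mul_right _ hq2) _)
      _ = q ^ ((r + 1) * (j + 1) + r * r) := by
        rw [← pow_succ', ← pow_mul, ← pow_add]
      _ ≤ q ^ N := by
        apply Nat.pow_le_pow_right (by omega)
        have h6 : r * r ≤ 3 * q ^ 2 * r ^ 2 := by
          have h7 : 1 ≤ 3 * q ^ 2 := by
            have : 0 < 3 * q ^ 2 := by positivity
            omega
          calc r * r = 1 * r ^ 2 := by ring
            _ ≤ 3 * q ^ 2 * r ^ 2 := Nat.mul_le_mul_right _ h7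
        have h8 : (r + 1) * (j + 1) ≤ (r + 5) * (j + 1) := Nat.mul_le_mul_right _ (by omega)
        omega
  have e2 : q ^ (2 * r) * ((q ^ r) ^ (2 * q ^ 2 * r) * (5 * q ^ (r + 2)) ^ j) ≤ q ^ N := by
    have h5 : 5 * q ^ (r + 2) ≤ q ^ (r + 5) := by
      have : 5 ≤ q ^ 3 := by
        calc 5 ≤ 2 ^ 3 := by norm_num
          _ ≤ q ^ 3 := Nat.pow_le_pow_left hq2 3
      calc 5 * q ^ (r + 2) ≤ q ^ 3 * q ^ (r + 2) := Nat.mul_le_mul_right _ this
        _ = q ^ (r + 5) := by rw [← pow_add]; congr 1; omega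
    calc q ^ (2 * r) * ((q ^ r) ^ (2 * q ^ 2 * r) * (5 * q ^ (r + 2)) ^ j) ≤
        q ^ (2 * r) * ((q ^ r) ^ (2 * q ^ 2 * r) * (q ^ (r + 5)) ^ j) :=
          Nat.mul_le_mul_left _ (Nat.mul_le_mul_left _ (Nat.pow_le_pow_left h5 _))
      _ = q ^ (2 * r + (r * (2 * q ^ 2 * r) + (r + 5) * j)) := by
        rw [← pow_mul, ← pow_mul, ← pow_add, ← pow_add]
      _ ≤ q ^ N := by
        apply Nat.pow_le_pow_right (by omega)
        have h6 : 2 * r ≤ q ^ 2 * r ^ 2 := by
          have : 4 ≤ q ^ 2 := by nlinarith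
          nlinarith
        have h7 : r * (2 * q ^ 2 * r) = 2 * (q ^ 2 * r ^ 2) := by ring
        have h8 : 3 * q ^ 2 * r ^ 2 = 3 * (q ^ 2 * r ^ 2) := by ring
        have h9 : (r + 5) * (j + 1) = (r + 5) * j + (r + 5) := by ring
        rw [hN, h7, h8, h9]
        omega
  calc _ ≤ q ^ N + q ^ N := Nat.add_le_add (h1.trans e1) (h2.trans e2)
    _ = 2 * q ^ N := by ring
    _ ≤ q * q ^ N := Nat.mul_le_mul_right _ hq2
    _ = q ^ (N + 1) := by rw [pow_succ']

lemma exists_OF (n k : ℕ) (hr : 2 ≤ r) (hk : 1 ≤ k)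
    (h : n.choose k * Fintype.card F ^ ((r + 5) * k + 3 * Fintype.card F ^ 2 * r ^ 2 + 1) <
      Fintype.card F ^ (2 * r * k)) : ∃ f : Fin n → PV F r, NoMono (GF f) k := by
  classical
  obtain ⟨f, hf⟩ := exists_avoid2 n k (zeroSet (⊥ : Submodule F (Fin r → F)) k ∪ allNon F r k) (by
    rw [card_PV, ← pow_mul]
    refine lt_of_le_of_lt (Nat.mul_le_mul_left _ ?_) h
    exact (Finset.card_union_le _ _).trans (card_bound hr hk))
  refine ⟨f, ?_, ?_⟩
  · intro s hs
    have h1 := hf s hs.card_eq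
    rw [mem_union, not_or] at h1
    apply h1.2
    simp only [allNon, mem_filter, mem_univ, true_and]
    intro a b hab
    have hlt : s.orderEmbOfFin hs.card_eq a < s.orderEmbOfFin hs.card_eq b :=
      (s.orderEmbOfFin hs.card_eq).strictMono hab
    exact (GF_lt f hlt).1 (hs.isClique (s.orderEmbOfFin_mem _ a) (s.orderEmbOfFin_mem _ b) hlt.ne)
  · intro s hs
    have h1 := hf s hs.card_eq
    rw [mem_union, not_or] at h1
    apply h1.1
    simp only [zeroSet, mem_filter, mem_univ, true_and]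
    constructor
    · intro i
      rw [LinearMap.BilinForm.mem_orthogonal_iff]
      intro x hx
      rw [Submodule.mem_bot] at hx
      rw [hx]
      show DB F r 0 _ = 0
      simp
    · intro a b hab
      have hlt : s.orderEmbOfFin hs.card_eq a < s.orderEmbOfFin hs.card_eq b :=
        (s.orderEmbOfFin hs.card_eq).strictMono hab
      have h2 := hs.isClique (s.orderEmbOfFin_mem hs.card_eq a) (s.orderEmbOfFin_mem hs.card_eq b)
        hlt.ne
      rw [SimpleGraph.compl_adj, GF_lt f hlt, not_not] at h2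
      exact h2.2

/-- The number of `k`-element subsets. -/
lemma choose_le_base {n k : ℕ} {x b : ℝ} (hb : 2 ≤ b) (hk : 1 ≤ k)
    (hn : (n : ℝ) ≤ k * b ^ (x - 2)) : ((n.choose k : ℕ) : ℝ) ≤ b ^ (x * k) := by
  have hb0 : (0 : ℝ) < b := by linarith
  have hk0 : (0 : ℝ) < k := by exact_mod_cast hk
  have h1 : ((n.choose k : ℕ) : ℝ) * (k.factorial : ℝ) ≤ (n : ℝ) ^ k := by
    have : n.choose k * k.factorial ≤ n ^ k := by
      rw [mul_comm, ← Nat.descFactorial_eq_factorial_mul_choose]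
      exact Nat.descFactorial_le_pow n k
    exact_mod_cast this
  have h2 : (k : ℝ) ^ k / k.factorial ≤ Real.exp k := Real.pow_div_factorial_le_exp _ hk0.le k
  have h3 : Real.exp k ≤ (b ^ 2) ^ k := by
    have e1 : Real.exp 1 ≤ b ^ 2 := by
      have := Real.exp_one_lt_d9
      nlinarith
    calc Real.exp k = Real.exp 1 ^ k := by rw [← Real.exp_nat_mul, mul_one]
      _ ≤ (b ^ 2) ^ k := pow_le_pow_left₀ (Real.exp_pos _).le e1 k
  have h4 : (k : ℝ) ^ k ≤ (b ^ 2) ^ k * k.factorial := by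
    have hf : (0 : ℝ) < k.factorial := by exact_mod_cast Nat.factorial_pos k
    rw [div_le_iff₀ hf] at h2
    nlinarith
  have h5 : (n : ℝ) ^ k ≤ (k : ℝ) ^ k * (b ^ (x * k) / (b ^ 2) ^ k) := by
    calc (n : ℝ) ^ k ≤ (k * b ^ (x - 2)) ^ k := pow_le_pow_left₀ (by positivity) hn k
      _ = (k : ℝ) ^ k * (b ^ (x - 2)) ^ k := by rw [mul_pow]
      _ = _ := by
        congr 1
        rw [← Real.rpow_natCast (b ^ (x - 2)), ← Real.rpow_mul hb0.le, sub_mul,
          Real.rpow_sub hb0, Real.rpow_mul hb0.le 2 (k : ℝ), Real.rpow_natCast]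
        norm_num
  have hf : (0 : ℝ) < k.factorial := by exact_mod_cast Nat.factorial_pos k
  have h6 : ((n.choose k : ℕ) : ℝ) * (k.factorial : ℝ) ≤ b ^ (x * k) * k.factorial := by
    refine h1.trans (h5.trans ?_)
    have h7 : 0 ≤ b ^ (x * k) / (b ^ 2) ^ k := by positivity
    calc (k : ℝ) ^ k * (b ^ (x * k) / (b ^ 2) ^ k) ≤
        ((b ^ 2) ^ k * k.factorial) * (b ^ (x * k) / (b ^ 2) ^ k) := mul_le_mul_of_nonneg_right h4 h7
      _ = _ := by field_simp
  exact le_of_mul_le_mul_right h6 hf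

/-- Existence, with real exponents. -/
lemma exists_OF' (n k : ℕ) (hr : 2 ≤ r) (hk : 1 ≤ k)
    (hn : (n : ℝ) ≤ k * (Fintype.card F : ℝ) ^
      ((r : ℝ) - 9 - 3 * (Fintype.card F : ℝ) ^ 2 * r ^ 2 / k)) :
    ∃ f : Fin n → PV F r, NoMono (GF f) k := by
  apply exists_OF n k hr hk
  set q := Fintype.card F with hq
  have hq2 : (2 : ℝ) ≤ q := by
    have : 2 ≤ q := Fintype.one_lt_card
    exact_mod_cast this
  have hq0 : (0 : ℝ) < q := by linarith
  have hk0 : (0 : ℝ) < k := by exact_mod_cast hk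
  have hk1 : (1 : ℝ) ≤ k := by exact_mod_cast hk
  have h1 : ((n.choose k : ℕ) : ℝ) ≤ (q : ℝ) ^ (((r : ℝ) - 7 - 3 * (q : ℝ) ^ 2 * r ^ 2 / k) * k) := by
    apply choose_le_base hq2 hk
    refine hn.trans (le_of_eq ?_)
    congr 2
    ring
  have h2 : ((r : ℝ) - 7 - 3 * (q : ℝ) ^ 2 * r ^ 2 / k) * k = (r - 7) * k - 3 * q ^ 2 * r ^ 2 := by
    field_simp
  rw [h2] at h1
  have h3 : ((n.choose k : ℕ) : ℝ) * (q : ℝ) ^ ((r + 5) * k + 3 * q ^ 2 * r ^ 2 + 1) <
      (q : ℝ) ^ (2 * r * k) := by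
    calc ((n.choose k : ℕ) : ℝ) * (q : ℝ) ^ ((r + 5) * k + 3 * q ^ 2 * r ^ 2 + 1) ≤
        (q : ℝ) ^ (((r : ℝ) - 7) * k - 3 * q ^ 2 * r ^ 2) *
          (q : ℝ) ^ ((((r + 5) * k + 3 * q ^ 2 * r ^ 2 + 1 : ℕ)) : ℝ) := by
          rw [Real.rpow_natCast]
          exact mul_le_mul_of_nonneg_right h1 (by positivity)
      _ = (q : ℝ) ^ ((2 * r * k : ℝ) + (1 - 2 * k)) := by
          rw [← Real.rpow_add hq0]
          congr 1
          push_cast
          ring
      _ < (q : ℝ) ^ ((2 * r * k : ℕ) : ℝ) := by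
          apply Real.rpow_lt_rpow_of_exponent_lt (by linarith)
          push_cast
          linarith
      _ = _ := Real.rpow_natCast _ _
  exact_mod_cast h3

omit [Fintype F] in
/-- The graph is given by a matrix of rank at most `r`. -/
lemma rank_GF [Fintype F] {n : ℕ} (f : Fin n → PV F r) :
    ∃ M : Matrix (Fin n) (Fin n) F, M.rank ≤ r ∧ ∀ x y, x < y → ((GF f).Adj x y ↔ M x y ≠ 0) := by
  let P : Matrix (Fin n) (Fin r) F := fun x => (f x).1
  let Q : Matrix (Fin r) (Fin n) F := fun i y => (f y).2 i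
  refine ⟨P * Q, ?_, ?_⟩
  · refine (Matrix.rank_mul_le_left P Q).trans ((Matrix.rank_le_card_width P).trans ?_)
    simp
  · intro x y hxy
    rw [GF_lt f hxy]
    rfl

/-- A matrix of rank at most `r` has at most `q ^ r` different rows. -/
lemma card_rows {n : ℕ} (M : Matrix (Fin n) (Fin n) F) (hr : M.rank ≤ r) :
    (by classical exact #(univ.image fun x => M.row x)) ≤ Fintype.card F ^ r := by
  classical
  have h1 : finrank F (Submodule.span F (Set.range M.row)) ≤ r := by
    rw [← Matrix.rank_eq_finrank_span_row]; exact hr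
  have h2 : #(univ.filter fun v : Fin n → F => v ∈ Submodule.span F (Set.range M.row)) =
      Fintype.card F ^ finrank F (Submodule.span F (Set.range M.row)) := by
    have h := H370RR.card_sub (Submodule.span F (Set.range M.row))
    convert h
  calc _ ≤ #(univ.filter fun v : Fin n → F => v ∈ Submodule.span F (Set.range M.row)) := by
        apply Finset.card_le_card
        intro v hv
        rw [mem_image] at hv
        obtain ⟨x, -, rfl⟩ := hv
        simp only [mem_filter, mem_univ, true_and]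
        exact Submodule.subset_span ⟨x, rfl⟩
    _ = _ := h2
    _ ≤ _ := Nat.pow_le_pow_right Fintype.card_pos h1

/-- **Upper bound.** -/
lemma upper_ord {n k : ℕ} (G : SimpleGraph (Fin n)) (M : Matrix (Fin n) (Fin n) F)
    (hM : ∀ x y x' y', x < y → x' < y' → M x y = M x' y' → (G.Adj x y ↔ G.Adj x' y'))
    (hr : M.rank ≤ r) (h : NoMono G k) : n ≤ 2 * (k - 1) * Fintype.card F ^ r := by
  classical
  by_contra hcon
  push Not at hcon
  have h1 : #(univ.image fun x => M.row x) * (2 * (k - 1)) < #(univ : Finset (Fin n)) := by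
    rw [Finset.card_univ, Fintype.card_fin]
    have h0 := card_rows M hr
    calc _ ≤ Fintype.card F ^ r * (2 * (k - 1)) := Nat.mul_le_mul_right _ (by convert h0)
      _ = 2 * (k - 1) * Fintype.card F ^ r := by ring
      _ < n := hcon
  obtain ⟨ρ, -, hρ⟩ := Finset.exists_lt_card_fiber_of_mul_lt_card_of_maps_to
    (s := (univ : Finset (Fin n))) (t := univ.image fun x => M.row x) (f := fun x => M.row x)
    (fun x _ => mem_image_of_mem _ (mem_univ x)) h1
  set s := (univ : Finset (Fin n)).filter fun x => M.row x = ρ with hs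
  let c : F → Prop := fun a => ∃ x y, x < y ∧ M x y = a ∧ G.Adj x y
  have hc : ∀ x y, x < y → (G.Adj x y ↔ c (M x y)) := by
    intro x y hxy
    constructor
    · intro h2; exact ⟨x, y, hxy, rfl, h2⟩
    · rintro ⟨x', y', hxy', he, h2⟩
      exact (hM x' y' x y hxy' hxy he).1 h2
  have h2 := Finset.card_filter_add_card_filter_not (s := s) (fun x => c (ρ x))
  have key : ∀ x ∈ s, ∀ y, x < y → (c (ρ y) ↔ G.Adj x y) := by
    intro x hx y hxy
    rw [hs, mem_filter] at hx
    rw [hc x y hxy, ← hx.2]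
    rfl
  rcases Nat.lt_or_ge (k - 1) #(s.filter fun x => c (ρ x)) with h3 | h3
  · obtain ⟨t, hts, htk⟩ := Finset.exists_subset_card_eq (n := k) (by omega :
      k ≤ #(s.filter fun x => c (ρ x)))
    apply h.1 t
    refine ⟨?_, htk⟩
    intro x hx y hy hxy
    have hx' := mem_filter.1 (hts hx)
    have hy' := mem_filter.1 (hts hy)
    rcases lt_or_gt_of_ne hxy with hlt | hlt
    · exact (key x hx'.1 y hlt).1 hy'.2
    · exact ((key y hy'.1 x hlt).1 hx'.2).symm
  · have h4 : k ≤ #(s.filter fun x => ¬ c (ρ x)) := by omega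
    obtain ⟨t, hts, htk⟩ := Finset.exists_subset_card_eq h4
    apply h.2 t
    refine ⟨?_, htk⟩
    intro x hx y hy hxy
    have hx' := mem_filter.1 (hts hx)
    have hy' := mem_filter.1 (hts hy)
    rw [SimpleGraph.compl_adj]
    refine ⟨hxy, ?_⟩
    rcases lt_or_gt_of_ne hxy with hlt | hlt
    · intro h5; exact hy'.2 ((key x hx'.1 y hlt).2 h5)
    · intro h5; exact hx'.2 ((key y hy'.1 x hlt).2 h5.symm)

end ex

end Pool.Agent.H524PR.OF
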