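import Pool.Agent.H370RR.NonOrth
import Pool.Agent.Helper524_PR.Exist2

/-!
helper524: colourings given above the diagonal by a matrix of small rank over a finite field.
-/

set_option autoImplicit false

namespace Pool.Agent.H524PR.OF

open Finset Module

section cnt

variable (F : Type) [Field F] [Fintype F] (r : ℕ)

/-- The form `x · y` on `F ^ r`. -/
noncomputable def DB : LinearMap.BilinForm F (Fin r → F) :=
  LinearMap.mk₂ F (fun x y => x ⬝ᵥ y)
    (fun x x' y => by rw [add_dotProduct])
    (fun c x y => by rw [smul_dotProduct])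
    (fun x y y' => by rw [dotProduct_add])
    (fun c x y => by rw [dotProduct_smul])

variable {F r}

omit [Fintype F] in
lemma DB_apply (x y : Fin r → F) : DB F r x y = x ⬝ᵥ y := rfl

omit [Fintype F] in
lemma DB_sep {x : Fin r → F} (h : ∀ y, DB F r x y = 0) : x = 0 := by
  funext i
  have := h (Pi.single i 1)
  simpa [DB_apply] using this

omit [Fintype F] in
lemma DB_nondeg : (DB F r).Nondegenerate := by
  refine ⟨fun x hx => DB_sep hx, fun y hy => DB_sep fun x => ?_⟩
  rw [DB_apply, dotProduct_comm]
  exact hy x

/-- The pairs of vectors. -/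
abbrev PV (F : Type) (r : ℕ) := (Fin r → F) × (Fin r → F)

open Classical in
/-- Families whose second vectors are orthogonal to `W` and to all earlier first vectors. -/
noncomputable def zeroSet (W : Submodule F (Fin r → F)) (j : ℕ) : Finset (Fin j → PV F r) :=
  univ.filter fun g => (∀ i, (g i).2 ∈ (DB F r).orthogonal W) ∧
    ∀ a b, a < b → (g a).1 ⬝ᵥ (g b).2 = 0

lemma card_V : Fintype.card (Fin r → F) = Fintype.card F ^ r := by
  rw [Fintype.card_fun, Fintype.card_fin]

theorem card_zeroSet (j : ℕ) : ∀ W : Submodule F (Fin r → F),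
    #(zeroSet W j) ≤ (2 * Fintype.card F ^ r) ^ j *
      Fintype.card F ^ ((r - finrank F W) * (r - finrank F W)) := by
  classical
  set q := Fintype.card F with hq
  have hq2 : 2 ≤ q := Fintype.one_lt_card
  induction j with
  | zero =>
    intro W
    refine (card_le_univ _).trans ?_
    rw [Fintype.card_fun, Fintype.card_fin, pow_zero, pow_zero, one_mul]
    exact Nat.one_le_pow _ _ (by omega)
  | succ j ih =>
    intro W
    set D := finrank F W with hD
    have hDr : D ≤ r := by
      have := Submodule.finrank_le W
      rwa [Module.finrank_fintype_fun_eq_card, Fintype.card_fin] at this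
    have hWo : #(univ.filter fun v : Fin r → F => v ∈ (DB F r).orthogonal W) = q ^ (r - D) := by
      have h2 := H370RR.card_sub ((DB F r).orthogonal W)
      rw [LinearMap.BilinForm.finrank_orthogonal DB_nondeg, Module.finrank_fintype_fun_eq_card,
        Fintype.card_fin] at h2
      convert h2
    have hWc : #(univ.filter fun v : Fin r → F => v ∈ W) = q ^ D := by
      have h2 := H370RR.card_sub W
      convert h2
    set A : Finset (PV F r) := (univ.filter fun v : Fin r → F => v ∈ W) ×ˢ
      (univ.filter fun v : Fin r → F => v ∈ (DB F r).orthogonal W) with hA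
    set A' : Finset (PV F r) := (univ.filter fun v : Fin r → F => v ∉ W) ×ˢ
      (univ.filter fun v : Fin r → F => v ∈ (DB F r).orthogonal W) with hA'
    have hsub : zeroSet W (j + 1) ⊆
        (A.biUnion fun p => (zeroSet W j).image (Fin.cons p)) ∪
        (A'.biUnion fun p => (zeroSet (W ⊔ Submodule.span F {p.1}) j).image (Fin.cons p)) := by
      intro g hg
      simp only [zeroSet, mem_filter, mem_univ, true_and] at hg
      obtain ⟨hg1, hg2⟩ := hg
      rw [mem_union, mem_biUnion, mem_biUnion]
      by_cases h0 : (g 0).1 ∈ W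
      · left
        refine ⟨g 0, ?_, ?_⟩
        · rw [hA, mem_product, mem_filter, mem_filter]
          exact ⟨⟨mem_univ _, h0⟩, mem_univ _, hg1 0⟩
        · rw [mem_image]
          refine ⟨Fin.tail g, ?_, Fin.cons_self_tail g⟩
          simp only [zeroSet, mem_filter, mem_univ, true_and]
          exact ⟨fun i => hg1 _, fun a b hab => hg2 _ _ (Fin.succ_lt_succ_iff.2 hab)⟩
      · right
        refine ⟨g 0, ?_, ?_⟩
        · rw [hA', mem_product, mem_filter, mem_filter]
          exact ⟨⟨mem_univ _, h0⟩, mem_univ _, hg1 0⟩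
        · rw [mem_image]
          refine ⟨Fin.tail g, ?_, Fin.cons_self_tail g⟩
          simp only [zeroSet, mem_filter, mem_univ, true_and]
          refine ⟨fun i => ?_, fun a b hab => hg2 _ _ (Fin.succ_lt_succ_iff.2 hab)⟩
          rw [LinearMap.BilinForm.mem_orthogonal_iff]
          intro x hx
          obtain ⟨x1, hx1, x2, hx2, rfl⟩ := Submodule.mem_sup.1 hx
          obtain ⟨s, rfl⟩ := Submodule.mem_span_singleton.1 hx2
          have h1 := (LinearMap.BilinForm.mem_orthogonal_iff).1 (hg1 i.succ) x1 hx1
          have h2 := hg2 0 i.succ (Fin.succ_pos i)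
          show DB F r (x1 + s • (g 0).1) (Fin.tail g i).2 = 0
          rw [map_add, LinearMap.add_apply, map_smul, LinearMap.smul_apply]
          show DB F r x1 (g i.succ).2 + s • ((g 0).1 ⬝ᵥ (g i.succ).2) = 0
          rw [h2, smul_zero, add_zero]
          exact h1
    set K := (2 * q ^ r) ^ j with hK
    have hc1 : #(A.biUnion fun p => ((zeroSet W j).image (Fin.cons p) :
        Finset (Fin (j + 1) → PV F r))) ≤ q ^ r * (K * q ^ ((r - D) * (r - D))) := by
      refine (card_biUnion_le_card_mul _ _ _ (fun v _ => (card_image_le).trans (ih W))).trans ?_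
      rw [hA, card_product, hWc, hWo, ← pow_add]
      have : D + (r - D) = r := by omega
      rw [this]
    have hc2 : #(A'.biUnion fun p => ((zeroSet (W ⊔ Submodule.span F {p.1}) j).image (Fin.cons p) :
        Finset (Fin (j + 1) → PV F r))) ≤ q ^ r * (K * q ^ ((r - D) * (r - D))) := by
      rcases hDr.lt_or_eq with hlt | heq
      · refine (card_biUnion_le_card_mul _ _ (K * q ^ ((r - (D + 1)) * (r - (D + 1))))
          (fun p hp => ?_)).trans ?_
        · refine (card_image_le).trans ?_
          rw [hA', mem_product, mem_filter] at hp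
          have hp0 : p.1 ∉ W := hp.1.2
          have hrk : finrank F (W ⊔ Submodule.span F {p.1} : Submodule F (Fin r → F)) = D + 1 := by
            have hv0 : p.1 ≠ 0 := by
              intro h
              rw [h] at hp0
              exact hp0 W.zero_mem
            have hinf : W ⊓ Submodule.span F {p.1} = ⊥ := by
              rw [Submodule.eq_bot_iff]
              intro x hx
              obtain ⟨hx1, hx2⟩ := Submodule.mem_inf.1 hx
              obtain ⟨s, rfl⟩ := Submodule.mem_span_singleton.1 hx2
              by_contra hne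
              have hs0 : s ≠ 0 := by
                rintro rfl
                exact hne (zero_smul _ _)
              exact hp0 ((W.smul_mem_iff hs0).1 hx1)
            have h1 := Submodule.finrank_sup_add_finrank_inf_eq W (Submodule.span F {p.1})
            rw [hinf, finrank_bot, finrank_span_singleton hv0] at h1
            omega
          have h2 := ih (W ⊔ Submodule.span F {p.1})
          rw [hrk] at h2
          exact h2
        · have h1 : #A' ≤ q ^ r * q ^ (r - D) := by
            rw [hA', card_product, hWo]
            refine Nat.mul_le_mul_right _ ((card_le_univ _).trans ?_)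
            rw [card_V]
          refine (Nat.mul_le_mul_right _ h1).trans ?_
          have h3 : q ^ (r - D) * q ^ ((r - (D + 1)) * (r - (D + 1))) ≤ q ^ ((r - D) * (r - D)) := by
            rw [← pow_add]
            apply Nat.pow_le_pow_right (by omega)
            obtain ⟨t, ht⟩ : ∃ t, r - D = t + 1 := ⟨r - D - 1, by omega⟩
            have ht' : r - (D + 1) = t := by omega
            rw [ht, ht']
            nlinarith
          calc q ^ r * q ^ (r - D) * (K * q ^ ((r - (D + 1)) * (r - (D + 1)))) =
              q ^ r * (K * (q ^ (r - D) * q ^ ((r - (D + 1)) * (r - (D + 1))))) := by ring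
            _ ≤ _ := Nat.mul_le_mul_left _ (Nat.mul_le_mul_left _ h3)
      · have hempty : A' = ∅ := by
          have hW : W = ⊤ := by
            apply Submodule.eq_top_of_finrank_eq
            rw [← hD, Module.finrank_fintype_fun_eq_card, Fintype.card_fin, heq]
          rw [hA', hW]
          simp
        rw [hempty, biUnion_empty, card_empty]
        exact Nat.zero_le _
    refine (card_le_card hsub).trans ((card_union_le _ _).trans ((Nat.add_le_add hc1 hc2).trans ?_))
    rw [pow_succ]
    apply le_of_eq
    ring

open Classical in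
/-- Families whose second vectors are in `U` and not orthogonal to any earlier first vector. -/
noncomputable def nonSet (U : Finset (Fin r → F)) (j : ℕ) : Finset (Fin j → PV F r) :=
  univ.filter fun g => (∀ i, (g i).2 ∈ U) ∧ ∀ a b, a < b → (g a).1 ⬝ᵥ (g b).2 ≠ 0

theorem good_step (q m u u' : ℕ) (hq : 2 ≤ q) (hs : 1 ≤ 2 * q ^ 2 * m) (hu : 1 ≤ u)
    (hu2 : u ≤ q ^ m) (h : 2 * q * u' ≤ (2 * q - 1) * u) :
    u * (max u' 1) ^ (2 * q ^ 2 * m) ≤ u ^ (2 * q ^ 2 * m) := by
  set s := 2 * q ^ 2 * m with hsd
  rcases Nat.eq_zero_or_pos u' with h0 | hpos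
  · subst h0
    rw [max_eq_right (by norm_num), one_pow, mul_one]
    exact Nat.le_self_pow (by omega) u
  · rw [max_eq_left hpos]
    have h1 : (2 * q) ^ s * (u * u' ^ s) ≤ (2 * q) ^ s * u ^ s := by
      calc (2 * q) ^ s * (u * u' ^ s) = u * (2 * q * u') ^ s := by rw [mul_pow]; ring
        _ ≤ u * ((2 * q - 1) * u) ^ s := Nat.mul_le_mul_left _ (Nat.pow_le_pow_left h s)
        _ = u * ((2 * q - 1) ^ s * u ^ s) := by rw [mul_pow]
        _ ≤ q ^ m * ((2 * q - 1) ^ s * u ^ s) := Nat.mul_le_mul_right _ hu2
        _ = (q ^ m * (2 * q - 1) ^ s) * u ^ s := by ring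
        _ ≤ (2 * q) ^ s * u ^ s := Nat.mul_le_mul_right _ (H370RR.key_pow q m hq)
    exact Nat.le_of_mul_le_mul_left h1 (by positivity)

theorem card_nonSet (hr : 2 ≤ r) (j : ℕ) : ∀ U : Finset (Fin r → F), (0 : Fin r → F) ∉ U →
    #(nonSet U j) ≤ (max #U 1) ^ (2 * Fintype.card F ^ 2 * r) *
      (5 * Fintype.card F ^ (r + 2)) ^ j := by
  classical
  set q := Fintype.card F with hq
  have hq2 : 2 ≤ q := Fintype.one_lt_card
  have hN : Fintype.card (Fin r → F) = Fintype.card F ^ 2 * q ^ (r - 2) := by
    rw [card_V, ← hq, ← pow_add]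
    congr 1
    omega
  have hs1 : 1 ≤ 2 * q ^ 2 * r := by
    have : 0 < 2 * q ^ 2 * r := by positivity
    omega
  set s := 2 * q ^ 2 * r with hs
  induction j with
  | zero =>
    intro U _
    refine (card_le_univ _).trans ?_
    rw [Fintype.card_fun, Fintype.card_fin, pow_zero, pow_zero, mul_one]
    exact Nat.one_le_pow _ _ (by omega)
  | succ j ih =>
    intro U hU
    rcases Nat.eq_zero_or_pos #U with h0 | hpos
    · have : nonSet U (j + 1) = ∅ := by
        apply Finset.eq_empty_of_forall_notMem
        intro g hg
        simp only [nonSet, mem_filter, mem_univ, true_and] at hg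
        have := hg.1 0
        rw [card_eq_zero] at h0
        rw [h0] at this
        simp at this
      rw [this, card_empty]
      exact Nat.zero_le _
    have hmax : max #U 1 = #U := max_eq_left hpos
    rw [hmax]
    let U' : (Fin r → F) → Finset (Fin r → F) := fun x => U.filter fun v => x ⬝ᵥ v ≠ 0
    have hU'0 : ∀ x, (0 : Fin r → F) ∉ U' x := fun x h => hU (mem_filter.1 h).1
    have hsub : nonSet U (j + 1) ⊆ ((univ : Finset (Fin r → F)) ×ˢ U).biUnion
        (fun p => (nonSet (U' p.1) j).image (fun g => (Fin.cons p g : Fin (j + 1) → PV F r))) := by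
      intro g hg
      simp only [nonSet, mem_filter, mem_univ, true_and] at hg
      obtain ⟨hg1, hg2⟩ := hg
      rw [mem_biUnion]
      refine ⟨g 0, by rw [mem_product]; exact ⟨mem_univ _, hg1 0⟩, ?_⟩
      rw [mem_image]
      refine ⟨Fin.tail g, ?_, Fin.cons_self_tail g⟩
      simp only [nonSet, mem_filter, mem_univ, true_and]
      refine ⟨fun i => ?_, fun a b hab => hg2 _ _ (Fin.succ_lt_succ_iff.2 hab)⟩
      exact mem_filter.2 ⟨hg1 _, hg2 0 i.succ (Fin.succ_pos i)⟩
    have hsum : #(nonSet U (j + 1)) ≤ ∑ x : Fin r → F, #U * #(nonSet (U' x) j) := by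
      refine ((card_le_card hsub).trans card_biUnion_le).trans ?_
      refine (Finset.sum_le_sum fun x _ => card_image_le).trans ?_
      rw [Finset.sum_product]
      refine Finset.sum_le_sum fun x _ => ?_
      show ∑ _y ∈ U, #(nonSet (U' x) j) ≤ _
      rw [Finset.sum_const, smul_eq_mul]
    set K := (5 * q ^ (r + 2)) ^ j with hK
    have hU'c : ∀ x, #(U' x) + #(H370RR.perp (DB F r) U x) = #U := by
      intro x
      have h1 : H370RR.perp (DB F r) U x = U.filter (fun u => ¬ (x ⬝ᵥ u ≠ 0)) := by
        unfold H370RR.perp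
        ext u
        rw [mem_filter, mem_filter, not_not, DB_apply, dotProduct_comm]
      rw [h1]
      exact Finset.card_filter_add_card_filter_not _
    have hUc : #U ≤ q ^ r := by
      rw [hq, ← card_V (F := F)]
      exact card_le_univ U
    have hle : ∀ x, #(nonSet (U' x) j) ≤ #U ^ s * K := by
      intro x
      refine (ih _ (hU'0 x)).trans ?_
      refine Nat.mul_le_mul_right _ (Nat.pow_le_pow_left ?_ s)
      have := hU'c x
      exact max_le (by omega) hpos
    have hbad := H370RR.card_bad (DB F r) DB_nondeg hN U hU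
    rw [← Finset.sum_filter_add_sum_filter_not univ (fun x => x ∈ H370RR.bad (DB F r) U)] at hsum
    have hb1 : ∑ x ∈ univ.filter (fun x => x ∈ H370RR.bad (DB F r) U),
        #U * #(nonSet (U' x) j) ≤ 4 * q ^ (r + 2) * (#U ^ s * K) := by
      refine (Finset.sum_le_card_nsmul _ _ (#U * (#U ^ s * K)) ?_).trans ?_
      · intro x _
        exact Nat.mul_le_mul_left _ (hle x)
      · rw [smul_eq_mul, ← mul_assoc]
        refine Nat.mul_le_mul_right _ ?_
        have h1 : (univ.filter fun x => x ∈ H370RR.bad (DB F r) U) = H370RR.bad (DB F r) U := by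
          ext x; simp
        rw [h1]
        refine hbad.trans (le_of_eq ?_)
        rw [← hq]
        have : q ^ (r + 2) = q ^ 4 * q ^ (r - 2) := by
          rw [← pow_add]; congr 1; omega
        rw [this]
        ring
    have hb2 : ∑ x ∈ univ.filter (fun x => ¬ x ∈ H370RR.bad (DB F r) U),
        #U * #(nonSet (U' x) j) ≤ q ^ r * (#U ^ s * K) := by
      refine (Finset.sum_le_card_nsmul _ _ (#U ^ s * K) ?_).trans ?_
      · intro x hx
        have hx2 := (mem_filter.1 hx).2
        simp only [H370RR.bad, mem_filter, mem_univ, true_and, not_lt] at hx2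
        have hc := hU'c x
        have h2 : 2 * q * #(U' x) ≤ (2 * q - 1) * #U := by
          rw [← hq] at hx2
          have : (2 * q - 1) * #U = 2 * q * #U - #U := by
            rw [Nat.sub_mul, one_mul]
          rw [this, ← hc]
          have h3 : 2 * q * (#(U' x) + #(H370RR.perp (DB F r) U x)) =
              2 * q * #(U' x) + 2 * q * #(H370RR.perp (DB F r) U x) := by ring
          omega
        calc #U * #(nonSet (U' x) j) ≤ #U * ((max #(U' x) 1) ^ s * K) :=
              Nat.mul_le_mul_left _ (ih _ (hU'0 x))
          _ = (#U * (max #(U' x) 1) ^ s) * K := by ring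
          _ ≤ (#U ^ s) * K :=
            Nat.mul_le_mul_right _ (good_step q r #U #(U' x) hq2 hs1 hpos hUc h2)
      · rw [smul_eq_mul]
        refine Nat.mul_le_mul_right _ ((card_le_univ _).trans ?_)
        rw [card_V]
    refine hsum.trans ((Nat.add_le_add hb1 hb2).trans ?_)
    have h1 : q ^ r ≤ q ^ (r + 2) := Nat.pow_le_pow_right (by omega) (by omega)
    calc _ ≤ 4 * q ^ (r + 2) * (#U ^ s * K) + q ^ (r + 2) * (#U ^ s * K) :=
          Nat.add_le_add_left (Nat.mul_le_mul_right _ h1) _
      _ = #U ^ s * (K * (5 * q ^ (r + 2))) := by ring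
      _ = _ := by rw [hK, ← pow_succ]

end cnt

end Pool.Agent.H524PR.OF
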