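import Mathlib
import Pool.Agent.Helper524_PR.Exact

/-!
helper524: the elliptic quadric of the symplectic space over the field with two elements. It meets
every Lagrangian subspace in a hyperplane, so two weights give extremal colourings for all large `k`.
-/

set_option autoImplicit false

namespace Pool.Agent.H524PR

open Finset Module

variable {m : ℕ}

/-- The sign of an element of the field with two elements. -/
def sg (a : ZMod 2) : ℤ := if a = 0 then 1 else -1

lemma sg_add (a b : ZMod 2) : sg (a + b) = sg a * sg b := by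
  revert a b; decide

lemma sg_zero : sg 0 = 1 := by decide
lemma sg_one : sg 1 = -1 := by decide
lemma sg_sq (a : ZMod 2) : sg a * sg a = 1 := by revert a; decide

/-- Sum of a nontrivial additive sign over a submodule. -/
lemma sum_sg_sub {V : Type*} [AddCommGroup V] [Module (ZMod 2) V] [Fintype V]
    (s : Finset V) (φ : V → ZMod 2) (hadd : ∀ u ∈ s, ∀ v ∈ s, φ (u + v) = φ u + φ v)
    (hs : ∀ u ∈ s, ∀ v ∈ s, u + v ∈ s) (w : V) (hw : w ∈ s) (hφ : φ w = 1) :
    ∑ v ∈ s, sg (φ v) = 0 := by
  have hww : ∀ v : V, v + w + w = v := by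
    intro v
    have h2 : w + w = 0 := by
      have := two_smul (ZMod 2) w
      rw [← this]
      have h0 : (2 : ZMod 2) = 0 := by decide
      rw [h0, zero_smul]
    rw [add_assoc, h2, add_zero]
  have h1 : ∑ v ∈ s, sg (φ v) = ∑ v ∈ s, sg (φ (v + w)) := by
    apply Finset.sum_nbij' (fun v => v + w) (fun v => v + w)
    · intro v hv; exact hs v hv w hw
    · intro v hv; exact hs v hv w hw
    · intro v _; exact hww v
    · intro v _; exact hww v
    · intro v _; rw [hww]
  have h2 : ∑ v ∈ s, sg (φ (v + w)) = - ∑ v ∈ s, sg (φ v) := by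
    rw [← Finset.sum_neg_distrib]
    apply Finset.sum_congr rfl
    intro v hv
    rw [hadd v hv w hw, hφ, sg_add, sg_one]
    ring
  omega

/-- The elliptic quadratic form on `F₂^(2 (m + 1))`. -/
def qf (m : ℕ) (u : SV (m + 1)) : ZMod 2 := u.1 ⬝ᵥ u.2 + (u.1 0 + u.2 0)

lemma qf_add (u v : SV (m + 1)) : qf m (u + v) = qf m u + qf m v + B (m + 1) u v := by
  unfold qf
  rw [B_apply]
  simp only [Prod.fst_add, Prod.snd_add, Pi.add_apply, add_dotProduct, dotProduct_add]
  rw [dotProduct_comm v.1 u.2]
  ring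

lemma sum_sg_dot (n : ℕ) :
    ∑ x : Fin n → ZMod 2, ∑ y : Fin n → ZMod 2, sg (x ⬝ᵥ y) = 2 ^ n := by
  classical
  rw [Finset.sum_eq_single (0 : Fin n → ZMod 2)]
  · simp [sg_zero]
  · intro x _ hx
    obtain ⟨i, hi⟩ : ∃ i, x i ≠ 0 := by
      by_contra hcon
      push Not at hcon
      exact hx (funext hcon)
    apply sum_sg_sub univ (fun y => x ⬝ᵥ y) (fun u _ v _ => dotProduct_add _ _ _)
      (fun _ _ _ _ => mem_univ _) (Pi.single i 1) (mem_univ _)
    rw [dotProduct_single, mul_one]
    exact (zmod2 _).resolve_left hi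
  · intro h; exact absurd (mem_univ _) h

/-- The sum of signs of the elliptic form. -/
lemma sum_sg_qf : ∑ u : SV (m + 1), sg (qf m u) = - 2 ^ (m + 1) := by
  classical
  let e : Fin (m + 1) → ZMod 2 := Pi.single 0 1
  have hee : e + e = 0 := by
    ext i
    exact CharTwo.add_self_eq_zero _
  have key : ∀ u : SV (m + 1), sg (qf m u) = - sg ((u.1 + e) ⬝ᵥ (u.2 + e)) := by
    intro u
    have : qf m u = (u.1 + e) ⬝ᵥ (u.2 + e) + 1 := by
      unfold qf
      simp only [add_dotProduct, dotProduct_add]
      simp only [e, single_dotProduct, dotProduct_single, one_mul, mul_one, Pi.single_eq_same]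
      have h11 : (1 : ZMod 2) + 1 = 0 := by decide
      linear_combination (-1 : ZMod 2) * h11
    rw [this, sg_add, sg_one]
    ring
  rw [Finset.sum_congr rfl (fun u _ => key u), Finset.sum_neg_distrib]
  congr 1
  rw [Fintype.sum_prod_type]
  rw [← sum_sg_dot (m + 1)]
  have hadd : ∀ x : Fin (m + 1) → ZMod 2, x + e + e = x := by
    intro x; rw [add_assoc, hee, add_zero]
  let E : (Fin (m + 1) → ZMod 2) ≃ (Fin (m + 1) → ZMod 2) :=
    ⟨fun x => x + e, fun x => x + e, hadd, hadd⟩
  rw [← Equiv.sum_comp E]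
  apply Finset.sum_congr rfl
  intro x _
  rw [← Equiv.sum_comp E]
  apply Finset.sum_congr rfl
  intro y _
  show sg ((x + e + e) ⬝ᵥ (y + e + e)) = _
  rw [hadd, hadd]

/-- The elliptic form does not vanish on a Lagrangian subspace. -/
lemma no_lagrangian (W : Submodule (ZMod 2) (SV (m + 1))) (hB : ∀ u ∈ W, ∀ v ∈ W, B (m + 1) u v = 0)
    (hq : ∀ u ∈ W, qf m u = 0) : finrank (ZMod 2) W ≠ m + 1 := by
  classical
  intro hdim
  have hle : W ≤ (B (m + 1)).orthogonal W := fun u hu v hv => hB v hv u hu
  have horth : (B (m + 1)).orthogonal W = W := by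
    symm
    apply Submodule.eq_of_le_of_finrank_eq hle
    rw [LinearMap.BilinForm.finrank_orthogonal B_nondeg, finrank_SV, hdim]
    omega
  set s : Finset (SV (m + 1)) := univ.filter fun v => v ∈ W with hs
  have hcard : (#s : ℤ) = 2 ^ (m + 1) := by
    have h := card_sub W
    rw [hdim] at h
    have h2 : #s = 2 ^ (m + 1) := by
      rw [← h]
    exact_mod_cast h2
  have h1 : ∑ v : SV (m + 1), ∑ w ∈ s, sg (qf m (v + w)) = #s * ∑ v : SV (m + 1), sg (qf m v) := by
    rw [Finset.sum_comm]
    have : ∀ w ∈ s, ∑ v : SV (m + 1), sg (qf m (v + w)) = ∑ v : SV (m + 1), sg (qf m v) :=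
      fun w _ => Equiv.sum_comp (Equiv.addRight w) (fun v => sg (qf m v))
    rw [Finset.sum_congr rfl this, Finset.sum_const, nsmul_eq_mul]
  have h2 : ∀ v : SV (m + 1), ∑ w ∈ s, sg (qf m (v + w)) = if v ∈ W then (#s : ℤ) else 0 := by
    intro v
    have h3 : ∑ w ∈ s, sg (qf m (v + w)) = sg (qf m v) * ∑ w ∈ s, sg (B (m + 1) v w) := by
      rw [Finset.mul_sum]
      apply Finset.sum_congr rfl
      intro w hw
      rw [hs, mem_filter] at hw
      rw [qf_add, hq w hw.2, add_zero, sg_add]
    rw [h3]
    split_ifs with hv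
    · rw [hq v hv, sg_zero, one_mul]
      rw [Finset.sum_congr rfl (g := fun _ => (1 : ℤ))]
      · simp
      · intro w hw
        rw [hs, mem_filter] at hw
        rw [hB v hv w hw.2, sg_zero]
    · have : ∃ w ∈ W, B (m + 1) v w = 1 := by
        by_contra hcon
        push Not at hcon
        apply hv
        rw [← horth]
        intro w hw
        show B (m + 1) w v = 0
        rw [B_symm]
        exact (zmod2 _).resolve_right (hcon w hw)
      obtain ⟨w, hw, hvw⟩ := this
      rw [sum_sg_sub s (fun w => B (m + 1) v w) (fun _ _ _ _ => map_add _ _ _) ?_ w ?_ hvw,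
        mul_zero]
      · intro u hu u' hu'
        rw [hs, mem_filter] at hu hu' ⊢
        exact ⟨mem_univ _, W.add_mem hu.2 hu'.2⟩
      · rw [hs, mem_filter]
        exact ⟨mem_univ _, hw⟩
  rw [Finset.sum_congr rfl (fun v _ => h2 v), Finset.sum_ite, Finset.sum_const_zero, add_zero,
    Finset.sum_const, nsmul_eq_mul, sum_sg_qf, ← hs, hcard] at h1
  have hpos : (0 : ℤ) < 2 ^ (m + 1) := by positivity
  nlinarith

/-- On a totally isotropic subspace at most `2 ^ m` vectors have a given value of the form. -/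
lemma card_value (W : Submodule (ZMod 2) (SV (m + 1))) (hB : ∀ u ∈ W, ∀ v ∈ W, B (m + 1) u v = 0)
    (hW : finrank (ZMod 2) W ≤ m + 1) (s : Finset (SV (m + 1))) (hs : ∀ v ∈ s, v ∈ W) (c : ZMod 2)
    (hc : ∀ v ∈ s, qf m v = c) : #s ≤ 2 ^ m := by
  classical
  by_cases hq : ∀ u ∈ W, qf m u = 0
  · have h1 := no_lagrangian W hB hq
    calc #s ≤ #(univ.filter fun v => v ∈ W) := by
          apply Finset.card_le_card
          intro v hv
          simp [hs v hv]
      _ = 2 ^ finrank (ZMod 2) W := by rw [← card_sub W]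
      _ ≤ 2 ^ m := Nat.pow_le_pow_right (by norm_num) (by omega)
  · push Not at hq
    obtain ⟨w, hw, hqw⟩ := hq
    have hqw : qf m w = 1 := (zmod2 _).resolve_left hqw
    have h1 : 2 * #s ≤ #(univ.filter fun v => v ∈ W) := by
      have hdisj : Disjoint s (s.map (Equiv.addRight w).toEmbedding) := by
        rw [Finset.disjoint_left]
        intro v hv hv'
        rw [Finset.mem_map] at hv'
        obtain ⟨u, hu, rfl⟩ := hv'
        have e1 := hc _ hv
        have e2 : qf m (u + w) = qf m u + 1 := by
          rw [qf_add, hqw, hB u (hs u hu) w hw, add_zero]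
        have e3 : qf m ((Equiv.addRight w).toEmbedding u) = qf m u + 1 := e2
        rw [e3, hc u hu] at e1
        revert e1
        generalize c = c'
        revert c'
        decide
      calc 2 * #s = #(s ∪ s.map (Equiv.addRight w).toEmbedding) := by
            rw [Finset.card_union_of_disjoint hdisj, Finset.card_map]; ring
        _ ≤ _ := by
            apply Finset.card_le_card
            intro v hv
            rw [Finset.mem_union, Finset.mem_map] at hv
            rw [mem_filter]
            refine ⟨mem_univ _, ?_⟩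
            rcases hv with hv | ⟨u, hu, rfl⟩
            · exact hs v hv
            · exact W.add_mem (hs u hu) hw
    have h2 : #(univ.filter fun v => v ∈ W) = 2 ^ finrank (ZMod 2) W := by
      rw [← card_sub W]
    have h3 : 2 ^ finrank (ZMod 2) W ≤ 2 ^ (m + 1) := Nat.pow_le_pow_right (by norm_num) hW
    have h4 : 2 ^ (m + 1) = 2 * 2 ^ m := by ring
    omega

lemma span_iso (T : Finset (SV m)) (h : ∀ u ∈ T, ∀ v ∈ T, B m u v = 0) :
    ∀ u ∈ Submodule.span (ZMod 2) (T : Set (SV m)),
      ∀ v ∈ Submodule.span (ZMod 2) (T : Set (SV m)), B m u v = 0 := by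
  have h1 : ∀ u ∈ T, ∀ v ∈ Submodule.span (ZMod 2) (T : Set (SV m)), B m u v = 0 := by
    intro u hu v hv
    induction hv using Submodule.span_induction with
    | mem x hx => exact h u hu x hx
    | zero => simp
    | add x y _ _ hx hy => rw [map_add, hx, hy, add_zero]
    | smul a x _ hx => rw [map_smul, hx, smul_zero]
  intro u hu v hv
  induction hu using Submodule.span_induction with
  | mem x hx => exact h1 x hx v hv
  | zero => simp
  | add x y _ _ hx hy => rw [map_add, LinearMap.add_apply, hx, hy, add_zero]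
  | smul a x _ hx => rw [map_smul, LinearMap.smul_apply, hx, smul_zero]

lemma finrank_iso (W : Submodule (ZMod 2) (SV m)) (h : ∀ u ∈ W, ∀ v ∈ W, B m u v = 0) :
    finrank (ZMod 2) W ≤ m := by
  have h1 : W ≤ (B m).orthogonal W := fun u hu v hv => h v hv u hu
  have h2 := Submodule.finrank_mono h1
  rw [LinearMap.BilinForm.finrank_orthogonal B_nondeg, finrank_SV] at h2
  have h3 := Submodule.finrank_le W
  rw [finrank_SV] at h3
  omega

/-- **The elliptic quadric is met by every totally isotropic subspace in at most `2 ^ m - 1`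
points, its complement in at most `2 ^ m` points.** -/
lemma card_iso_qf (T : Finset (SV (m + 1))) (h : ∀ u ∈ T, ∀ v ∈ T, B (m + 1) u v = 0)
    (h0 : 0 ∉ T) :
    #(T.filter fun u => qf m u = 0) + 1 ≤ 2 ^ m ∧ #(T.filter fun u => ¬ qf m u = 0) ≤ 2 ^ m := by
  classical
  set W := Submodule.span (ZMod 2) (T : Set (SV (m + 1))) with hW
  have hB := span_iso T h
  have hd := finrank_iso W hB
  constructor
  · rw [← Finset.card_insert_of_notMem (a := (0 : SV (m + 1)))]
    · apply card_value W hB hd _ _ 0
      · intro v hv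
        rw [mem_insert, mem_filter] at hv
        rcases hv with rfl | hv
        · simp [qf]
        · exact hv.2
      · intro v hv
        rw [mem_insert, mem_filter] at hv
        rcases hv with rfl | hv
        · exact W.zero_mem
        · exact Submodule.subset_span hv.1
    · intro h1
      exact h0 (mem_filter.1 h1).1
  · apply card_value W hB hd _ _ 1
    · intro v hv
      exact (zmod2 _).resolve_left (mem_filter.1 hv).2
    · intro v hv
      exact Submodule.subset_span (mem_filter.1 hv).1

/-! ### The two-weight colouring -/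

/-- The weight of a vector. -/
def wt (m a b : ℕ) (u : SV (m + 1)) : ℕ := if qf m u = 0 then a else b

/-- The vertices: each nonzero vector of the quadric `a` times, all others `b` times. -/
abbrev XQ (m a b : ℕ) := Σ u : {u : SV (m + 1) // u ≠ 0}, Fin (wt m a b u)

lemma card_zeros : #(univ.filter fun u : SV (m + 1) => qf m u = 0) = 2 ^ (2 * m + 1) - 2 ^ m ∧
    #(univ.filter fun u : SV (m + 1) => ¬ qf m u = 0) = 2 ^ (2 * m + 1) + 2 ^ m := by
  have h1 := Finset.card_filter_add_card_filter_not (s := (univ : Finset (SV (m + 1))))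
    (fun u => qf m u = 0)
  rw [Finset.card_univ, card_SV] at h1
  have h2 := sum_sg_qf (m := m)
  unfold sg at h2
  rw [Finset.sum_ite, Finset.sum_const, Finset.sum_const, nsmul_eq_mul, nsmul_eq_mul, mul_one] at h2
  set p := #(univ.filter fun u : SV (m + 1) => qf m u = 0)
  set q := #(univ.filter fun u : SV (m + 1) => ¬ qf m u = 0)
  have h3 : 2 ^ (2 * (m + 1)) = 2 * 2 ^ (2 * m + 1) := by ring
  have h4 : (2 : ℤ) ^ (m + 1) = 2 * 2 ^ m := by ring
  have h5 : (q : ℤ) = p + 2 * 2 ^ m := by
    rw [h4] at h2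
    linarith
  have h6 : q = p + 2 * 2 ^ m := by exact_mod_cast h5
  omega

lemma card_XQ (m a b : ℕ) :
    Fintype.card (XQ m a b) = ((2 ^ m - 1) * a + 2 ^ m * b) * (2 ^ (m + 1) + 1) := by
  classical
  rw [Fintype.card_sigma]
  simp only [Fintype.card_fin]
  have h1 := Fintype.sum_subtype_add_sum_subtype (fun u : SV (m + 1) => u = 0) (wt m a b)
  have h0 : ∀ F : Fintype {u : SV (m + 1) // u = 0},
      ∑ i : {u : SV (m + 1) // u = 0}, wt m a b i = a := by
    intro F
    rw [Finset.sum_congr rfl (g := fun _ => a)]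
    · simp
    · rintro ⟨u, rfl⟩ _
      simp [wt, qf]
  rw [h0 _] at h1
  have h2 : ∑ u : SV (m + 1), wt m a b u =
      (2 ^ (2 * m + 1) - 2 ^ m) * a + (2 ^ (2 * m + 1) + 2 ^ m) * b := by
    unfold wt
    rw [Finset.sum_ite, Finset.sum_const, Finset.sum_const, card_zeros.1, card_zeros.2]
    simp
  rw [h2] at h1
  have h3 : a + (2 ^ m - 1) * (2 ^ (m + 1) + 1) * a = (2 ^ (2 * m + 1) - 2 ^ m) * a := by
    obtain ⟨q, hq⟩ : ∃ q, 2 ^ m = q + 1 := ⟨2 ^ m - 1, by have := Nat.one_le_two_pow (n := m); omega⟩
    have e1 : 2 ^ (2 * m + 1) = 2 * ((q + 1) * (q + 1)) := by rw [← hq]; ring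
    have e2 : 2 ^ (m + 1) = 2 * (q + 1) := by rw [← hq]; ring
    rw [e1, e2, hq]
    have e3 : 2 * ((q + 1) * (q + 1)) - (q + 1) = q * (2 * (q + 1) + 1) + 1 := by
      have : 2 * ((q + 1) * (q + 1)) = q * (2 * (q + 1) + 1) + 1 + (q + 1) := by ring
      omega
    rw [e3, Nat.add_sub_cancel]
    ring
  have h4 : (2 ^ (2 * m + 1) + 2 ^ m) * b = 2 ^ m * b * (2 ^ (m + 1) + 1) := by ring
  have h5 : ((2 ^ m - 1) * a + 2 ^ m * b) * (2 ^ (m + 1) + 1) =
      (2 ^ m - 1) * (2 ^ (m + 1) + 1) * a + 2 ^ m * b * (2 ^ (m + 1) + 1) := by ring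
  have h6 : ∑ i : {x : SV (m + 1) // x ≠ 0}, wt m a b i =
      ∑ i : {x : SV (m + 1) // ¬ x = 0}, wt m a b i := rfl
  rw [h6]
  omega

lemma extremalQ (m a b k : ℕ) (hk : (2 ^ m - 1) * a + 2 ^ m * b < k)
    (hk2 : 2 * (m + 1) + 1 < k) :
    NoMono (GV (fun x : XQ m a b => (x.1 : SV (m + 1)))) k := by
  classical
  constructor
  · intro s hs
    let g : Fin #s → SV (m + 1) := fun i => ((s.equivFin.symm i : XQ m a b)).1
    have hg : PW 1 g := by
      intro a b hab
      exact hs.isClique (s.equivFin.symm a).2 (s.equivFin.symm b).2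
        (fun e => hab (s.equivFin.symm.injective (Subtype.ext e)))
    have h1 := clique_le hg
    have h2 := hs.card_eq
    omega
  · intro s hs
    have hp : ∀ x ∈ s, ∀ y ∈ s, B (m + 1) (x.1 : SV (m + 1)) (y.1 : SV (m + 1)) = 0 := by
      intro x hx y hy
      by_cases hxy : x = y
      · rw [hxy]; exact B_self _
      · have := hs.isClique hx hy hxy
        rw [SimpleGraph.compl_adj] at this
        exact (GV_not_adj _ _ _).1 this.2
    set T := s.image fun x => (x.1 : SV (m + 1)) with hT
    have hTB : ∀ u ∈ T, ∀ v ∈ T, B (m + 1) u v = 0 := by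
      intro u hu v hv
      rw [hT, mem_image] at hu hv
      obtain ⟨x, hx, rfl⟩ := hu
      obtain ⟨y, hy, rfl⟩ := hv
      exact hp x hx y hy
    have hT0 : 0 ∉ T := by
      intro h0
      rw [hT, mem_image] at h0
      obtain ⟨x, -, hx⟩ := h0
      exact x.1.2 hx
    have h1 : #s ≤ ∑ u ∈ T, wt m a b u := by
      rw [Finset.card_eq_sum_card_image (fun x : XQ m a b => (x.1 : SV (m + 1))) s]
      apply Finset.sum_le_sum
      intro u hu
      calc #(s.filter fun x => (x.1 : SV (m + 1)) = u) ≤ #(Finset.range (wt m a b u)) := by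
            apply Finset.card_le_card_of_injOn (fun x => (x.2 : ℕ))
            · intro x hx
              have hx' := (mem_filter.1 hx).2
              rw [mem_coe, mem_range, ← hx']
              exact x.2.2
            · intro x hx y hy hxy
              simp only [coe_filter, Set.mem_ofPred_eq] at hx hy
              obtain ⟨⟨x1, hx1⟩, x2⟩ := x
              obtain ⟨⟨y1, hy1⟩, y2⟩ := y
              obtain rfl : x1 = y1 := hx.2.trans hy.2.symm
              have : x2 = y2 := Fin.ext hxy
              rw [this]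
        _ = wt m a b u := by simp
    have h2 := card_iso_qf T hTB hT0
    have h3 : ∑ u ∈ T, wt m a b u = #(T.filter fun u => qf m u = 0) * a +
        #(T.filter fun u => ¬ qf m u = 0) * b := by
      unfold wt
      rw [Finset.sum_ite, Finset.sum_const, Finset.sum_const]
      simp
    have h4 : #(T.filter fun u => qf m u = 0) * a ≤ (2 ^ m - 1) * a :=
      Nat.mul_le_mul_right _ (by omega)
    have h5 : #(T.filter fun u => ¬ qf m u = 0) * b ≤ 2 ^ m * b := Nat.mul_le_mul_right _ h2.2
    have h6 := hs.card_eq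
    omega

end Pool.Agent.H524PR
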